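import Pool.Agent.KS6_47.Clo.Defs

set_option autoImplicit false
set_option linter.unusedSectionVars false

/-!
# The action of triples on `Cantor set × G`
-/

namespace Pool.Agent.KS6_47.Clo

/-- the Cantor set -/
abbrev CS := ℕ → Bool

/-- put a letter in front -/
def cns (b : Bool) (x : CS) : CS
  | 0 => b
  | n + 1 => x n

/-- remove the first letter -/
def tl (x : CS) : CS := fun n => x (n + 1)

theorem cns_tl (x : CS) : cns (x 0) (tl x) = x := by
  funext n
  cases n <;> rfl

theorem tl_cns (b : Bool) (x : CS) : tl (cns b x) = x := rfl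

theorem cns_inj {a b : Bool} {x y : CS} (h : cns a x = cns b y) : a = b ∧ x = y :=
  ⟨congrFun h 0, by have := congrArg tl h; exact this⟩

/-- put a word in front -/
def app : List Bool → CS → CS
  | [], z => z
  | b :: v, z => cns b (app v z)

theorem app_append (u v : List Bool) (z : CS) : app (u ++ v) z = app u (app v z) := by
  induction u with
  | nil => rfl
  | cons b u ih => simp only [List.cons_append, app, ih]

theorem app_inj : ∀ (u v : List Bool), (∀ z, app u z = app v z) → u = v
  | [], [], _ => rfl
  | [], b :: v, h => by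
    have := congrFun (h fun _ => !b) 0
    simp [app, cns] at this
  | a :: u, [], h => by
    have := congrFun (h fun _ => !a) 0
    simp [app, cns] at this
  | a :: u, b :: v, h => by
    have h1 := congrFun (h fun _ => false) 0
    simp only [app, cns] at h1
    have h2 := app_inj u v fun z => (cns_inj (h z)).2
    rw [h1, h2]

/-- the address of the leaf number `j` -/
def addr : BT → ℕ → List Bool
  | .leaf, _ => []
  | .node l r, j => if j < l.size then false :: addr l j else true :: addr r (j - l.size)

/-- the decomposition of a point -/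
def split : BT → CS → ℕ × CS
  | .leaf, x => (0, x)
  | .node l r, x => if x 0 = false then split l (tl x) else
      (l.size + (split r (tl x)).1, (split r (tl x)).2)

theorem size_pos : ∀ B : BT, 0 < B.size
  | .leaf => one_pos
  | .node l r => by have := size_pos l; simp only [BT.size]; omega

theorem split_app : ∀ (B : BT) (j : ℕ) (z : CS), j < B.size → split B (app (addr B j) z) = (j, z)
  | .leaf, j, z, h => by
    simp only [BT.size] at h
    have : j = 0 := by omega
    subst this
    rfl
  | .node l r, j, z, h => by
    simp only [BT.size] at h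
    by_cases hj : j < l.size
    · simp only [addr, if_pos hj, app, split, cns, tl_cns, if_true]
      exact split_app l j z hj
    · have h1 := split_app r (j - l.size) z (by omega)
      simp only [addr, if_neg hj, app, split, cns, tl_cns]
      rw [if_neg (by simp), h1]
      simp only [Prod.mk.injEq, and_true]
      omega

theorem app_split : ∀ (B : BT) (x : CS), (split B x).1 < B.size ∧
    app (addr B (split B x).1) (split B x).2 = x
  | .leaf, x => ⟨one_pos, rfl⟩
  | .node l r, x => by
    by_cases hx : x 0 = false
    · obtain ⟨h1, h2⟩ := app_split l (tl x)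
      simp only [split, if_pos hx, BT.size]
      refine ⟨by omega, ?_⟩
      simp only [addr, if_pos h1, app, h2]
      conv_rhs => rw [← cns_tl x, hx]
    · obtain ⟨h1, h2⟩ := app_split r (tl x)
      simp only [split, if_neg hx, BT.size]
      refine ⟨by omega, ?_⟩
      rw [addr, if_neg (by omega), Nat.add_sub_cancel_left]
      simp only [app, h2]
      have hx' : x 0 = true := by simpa using hx
      conv_rhs => rw [← cns_tl x, hx']

theorem exists_app (B : BT) (x : CS) : ∃ j < B.size, ∃ z, x = app (addr B j) z :=
  ⟨_, (app_split B x).1, _, (app_split B x).2.symm⟩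

theorem size_caret : ∀ (B : BT) (k : ℕ), (B.caret k).size = B.size + 1
  | .leaf, _ => rfl
  | .node l r, k => by
    by_cases hk : k < l.size
    · simp only [BT.caret, if_pos hk, BT.size, size_caret l k]; omega
    · simp only [BT.caret, if_neg hk, BT.size, size_caret r (k - l.size)]; omega

theorem addr_caret_lt : ∀ (B : BT) (k j : ℕ), k < B.size → j < k → addr (B.caret k) j = addr B j
  | .leaf, k, j, hk, hj => by simp only [BT.size] at hk; omega
  | .node l r, k, j, hk, hj => by
    simp only [BT.size] at hk
    by_cases h : k < l.size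
    · simp only [BT.caret, if_pos h, addr, size_caret]
      rw [if_pos (by omega), if_pos (by omega), addr_caret_lt l k j h hj]
    · simp only [BT.caret, if_neg h, addr]
      by_cases h2 : j < l.size
      · rw [if_pos h2, if_pos h2]
      · rw [if_neg h2, if_neg h2, addr_caret_lt r _ _ (by omega) (by omega)]

theorem addr_caret_eq : ∀ (B : BT) (k : ℕ), k < B.size → addr (B.caret k) k = addr B k ++ [false]
  | .leaf, k, hk => by
    simp only [BT.size] at hk
    have : k = 0 := by omega
    subst this
    rfl
  | .node l r, k, hk => by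
    simp only [BT.size] at hk
    by_cases h : k < l.size
    · simp only [BT.caret, if_pos h, addr, size_caret]
      rw [if_pos (by omega), addr_caret_eq l k h]
      rfl
    · simp only [BT.caret, if_neg h, addr]
      rw [addr_caret_eq r _ (by omega)]
      rfl

theorem addr_caret_succ : ∀ (B : BT) (k : ℕ), k < B.size →
    addr (B.caret k) (k + 1) = addr B k ++ [true]
  | .leaf, k, hk => by
    simp only [BT.size] at hk
    have : k = 0 := by omega
    subst this
    rfl
  | .node l r, k, hk => by
    simp only [BT.size] at hk
    by_cases h : k < l.size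
    · simp only [BT.caret, if_pos h, addr, size_caret]
      rw [if_pos (by omega), addr_caret_succ l k h]
      rfl
    · simp only [BT.caret, if_neg h, addr]
      rw [if_neg (by omega), show k + 1 - l.size = k - l.size + 1 by omega,
        addr_caret_succ r _ (by omega)]
      rfl

theorem addr_caret_gt : ∀ (B : BT) (k j : ℕ), k < B.size → k < j → j < B.size →
    addr (B.caret k) (j + 1) = addr B j
  | .leaf, k, j, hk, hj, hj2 => by simp only [BT.size] at hj2; omega
  | .node l r, k, j, hk, hj, hj2 => by
    simp only [BT.size] at hk hj2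
    by_cases h : k < l.size
    · simp only [BT.caret, if_pos h, addr, size_caret]
      by_cases h2 : j < l.size
      · rw [if_pos (by omega), if_pos h2, addr_caret_gt l k j h hj h2]
      · rw [if_neg (by omega), if_neg h2]
        congr 2
        omega
    · simp only [BT.caret, if_neg h, addr]
      rw [if_neg (by omega), if_neg (by omega), show j + 1 - l.size = j - l.size + 1 by omega,
        addr_caret_gt r _ _ (by omega) (by omega) (by omega)]

section lists

variable {G : Type} (φ : G → G)

theorem clone_length : ∀ (k : ℕ) (g : List G), k < g.length → (clone φ k g).length = g.length + 1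
  | _, [], h => by simp at h
  | 0, a :: t, _ => rfl
  | k + 1, a :: t, h => by
    simp only [List.length_cons] at h
    simp only [clone, List.length_cons, clone_length k t (by omega)]

theorem clone_lt (d : G) : ∀ (k j : ℕ) (g : List G), j ≤ k →
    (clone φ k g).getD j d = g.getD j d
  | _, _, [], _ => by simp [clone]
  | 0, 0, a :: t, _ => rfl
  | k + 1, 0, a :: t, _ => rfl
  | k + 1, j + 1, a :: t, h => by
    simp only [clone, List.getD_cons_succ]
    exact clone_lt d k j t (by omega)

theorem clone_succ (d : G) : ∀ (k : ℕ) (g : List G), k < g.length →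
    (clone φ k g).getD (k + 1) d = φ (g.getD k d)
  | _, [], h => by simp at h
  | 0, a :: t, _ => rfl
  | k + 1, a :: t, h => by
    simp only [List.length_cons] at h
    simp only [clone, List.getD_cons_succ]
    exact clone_succ d k t (by omega)

theorem clone_gt (d : G) : ∀ (k j : ℕ) (g : List G), k < j →
    (clone φ k g).getD (j + 1) d = g.getD j d
  | _, _, [], _ => by simp [clone]
  | 0, j + 1, a :: t, _ => by
    simp only [clone, List.getD_cons_succ]
  | k + 1, j + 1, a :: t, h => by
    simp only [clone, List.getD_cons_succ]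
    exact clone_gt d k j t (by omega)

theorem clone_head : ∀ (k : ℕ) (g : List G), (clone φ k g).head? = g.head?
  | 0, [] => rfl
  | _ + 1, [] => rfl
  | 0, a :: t => rfl
  | k + 1, a :: t => rfl

end lists

/-- the number of right turns -/
def ones (v : List Bool) : ℕ := v.count true

variable {G : Type} [Group G]

/-- the iterates of `φ` -/
def itr (φ : G →* G) : ℕ → G →* G
  | 0 => MonoidHom.id G
  | k + 1 => (itr φ k).comp φ

theorem itr_apply (φ : G →* G) : ∀ (k : ℕ) (g : G), itr φ k g = φ^[k] g
  | 0, _ => rfl
  | k + 1, g => by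
    rw [Function.iterate_succ_apply, ← itr_apply φ k]
    rfl

open Classical in
/-- the label homomorphism at a point: `φ` iterated as many times as there are right turns, and
trivial if there are infinitely many -/
noncomputable def Lb (φ : G →* G) (z : CS) : G →* G :=
  if {n | z n = true}.Finite then itr φ {n | z n = true}.ncard else 1

theorem set_false (z : CS) : {n | cns false z n = true} = Nat.succ '' {n | z n = true} := by
  ext n
  cases n with
  | zero => simp [cns]
  | succ n => simp [cns]

theorem set_true (z : CS) : {n | cns true z n = true} = insert 0 (Nat.succ '' {n | z n = true}) := by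
  ext n
  cases n with
  | zero => simp [cns]
  | succ n => simp [cns]

theorem Lb_false (φ : G →* G) (z : CS) : Lb φ (cns false z) = Lb φ z := by
  unfold Lb
  rw [set_false, Set.ncard_image_of_injective _ Nat.succ_injective,
    Set.finite_image_iff Nat.succ_injective.injOn]

theorem Lb_true (φ : G →* G) (z : CS) (g : G) : Lb φ (cns true z) g = Lb φ z (φ g) := by
  unfold Lb
  rw [set_true]
  by_cases h : {n | z n = true}.Finite
  · have h1 : (insert 0 (Nat.succ '' {n | z n = true})).Finite := (h.image _).insert 0
    have h2 : (insert 0 (Nat.succ '' {n | z n = true})).ncard = {n | z n = true}.ncard + 1 := by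
      rw [Set.ncard_insert_of_notMem (by simp) (h.image _),
        Set.ncard_image_of_injective _ Nat.succ_injective]
    rw [if_pos h1, if_pos h, h2]
    rfl
  · have h1 : ¬ (insert 0 (Nat.succ '' {n | z n = true})).Finite := by
      intro h1
      apply h
      have h2 := h1.subset (Set.subset_insert _ _)
      exact (Set.finite_image_iff Nat.succ_injective.injOn).1 h2
    rw [if_neg h1, if_neg h]
    simp

theorem Lb_zero (φ : G →* G) (g : G) : Lb φ (fun _ => false) g = g := by
  unfold Lb
  have h : {n : ℕ | (fun _ : ℕ => false) n = true} = ∅ := by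
    ext n
    simp
  rw [h, if_pos Set.finite_empty, Set.ncard_empty]
  rfl

theorem Lb_app (φ : G →* G) : ∀ (v : List Bool) (z : CS) (g : G),
    Lb φ (app v z) g = Lb φ z (φ^[ones v] g)
  | [], z, g => rfl
  | false :: v, z, g => by
    simp only [app]
    rw [Lb_false, Lb_app φ v]
    simp [ones]
  | true :: v, z, g => by
    simp only [app]
    rw [Lb_true, Lb_app φ v]
    simp [ones, Function.iterate_succ_apply]

/-- the action -/
noncomputable def act (φ : G →* G) (t : Triple G) (P : CS × G) : CS × G :=
  (app (addr t.neg (split t.pos P.1).1) (split t.pos P.1).2,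
    Lb φ (split t.pos P.1).2 (t.lab.getD (split t.pos P.1).1 1) * P.2)

theorem act_app (φ : G →* G) (t : Triple G) {j : ℕ} (hj : j < t.pos.size) (z : CS) (h : G) :
    act φ t (app (addr t.pos j) z, h) = (app (addr t.neg j) z,
      Lb φ z (t.lab.getD j 1) * h) := by
  unfold act
  simp only [split_app _ _ _ hj]

theorem act_ext {φ : G →* G} {s : Triple G} {F : CS × G → CS × G}
    (h : ∀ j < s.pos.size, ∀ z h, act φ s (app (addr s.pos j) z, h) = F (app (addr s.pos j) z, h)) :
    act φ s = F := by
  funext ⟨x, g⟩
  obtain ⟨j, hj, z, rfl⟩ := exists_app s.pos x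
  exact h j hj z g

theorem act_step {φ : G →* G} {s t : Triple G} (hst : Step φ s t) :
    act φ s = act φ t := by
  obtain ⟨k, hk, h1, h2, h3⟩ := hst
  have hkp : k < s.pos.size := by rw [← s.hpos]; exact hk
  have hkn : k < s.neg.size := by rw [← s.hneg]; exact hk
  have hsz : s.neg.size = s.pos.size := by rw [← s.hneg, ← s.hpos]
  have htp : t.pos.size = s.pos.size + 1 := by rw [h3, size_caret]
  apply act_ext
  intro j hj z g
  rw [act_app φ s hj]
  rcases lt_trichotomy j k with hjk | hjk | hjk
  · have e := act_app φ t (j := j) (by omega) z g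
    rw [h1, h2, h3, addr_caret_lt _ _ _ hkp hjk, addr_caret_lt _ _ _ hkn hjk,
      clone_lt _ _ _ _ _ hjk.le] at e
    exact e.symm
  · subst hjk
    rw [← cns_tl z]
    cases hz : z 0 with
    | false =>
      have e := act_app φ t (j := j) (by omega) (tl z) g
      rw [h1, h2, h3, addr_caret_eq _ _ hkp, addr_caret_eq _ _ hkn,
        clone_lt _ _ _ _ _ le_rfl, app_append, app_append] at e
      rw [Lb_false]
      exact e.symm
    | true =>
      have e := act_app φ t (j := j + 1) (by omega) (tl z) g
      rw [h1, h2, h3, addr_caret_succ _ _ hkp, addr_caret_succ _ _ hkn,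
        clone_succ _ _ _ _ hk, app_append, app_append] at e
      rw [Lb_true]
      exact e.symm
  · have e := act_app φ t (j := j + 1) (by omega) z g
    rw [h1, h2, h3, addr_caret_gt _ _ _ hkp hjk hj, addr_caret_gt _ _ _ hkn hjk (by omega),
      clone_gt _ _ _ _ _ hjk] at e
    exact e.symm

theorem act_mul {φ : G →* G} {s t u : Triple G} (h1 : s.pos = t.neg)
    (h2 : u.neg = s.neg) (h3 : u.pos = t.pos) (h4 : u.lab = List.zipWith (· * ·) s.lab t.lab)
    (P : CS × G) : act φ s (act φ t P) = act φ u P := by
  obtain ⟨x, g⟩ := P
  obtain ⟨j, hj, z, rfl⟩ := exists_app t.pos x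
  have hj2 : j < t.neg.size := by rw [← t.hneg, t.hpos]; exact hj
  have hj1 : j < s.pos.size := by rw [h1]; exact hj2
  rw [act_app φ t hj]
  have e := act_app φ s hj1 z (Lb φ z (t.lab.getD j 1) * g)
  rw [h1] at e
  rw [e]
  have e2 := act_app φ u (j := j) (by rw [h3]; exact hj) z g
  rw [h2, h3] at e2
  rw [e2]
  congr 1
  have hl : u.lab.getD j 1 = s.lab.getD j 1 * t.lab.getD j 1 := by
    have l1 : j < s.lab.length := by rw [s.hpos]; exact hj1
    have l2 : j < t.lab.length := by rw [t.hpos]; exact hj
    rw [h4, List.getD_eq_getElem _ _ (by rw [List.length_zipWith]; omega),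
      List.getD_eq_getElem _ _ l1, List.getD_eq_getElem _ _ l2, List.getElem_zipWith]
  rw [hl, map_mul, mul_assoc]

theorem act_id {φ : G →* G} {t : Triple G} (h1 : t.neg = t.pos)
    (h2 : ∀ j < t.pos.size, t.lab.getD j 1 = 1) (P : CS × G) : act φ t P = P := by
  obtain ⟨x, g⟩ := P
  obtain ⟨j, hj, z, rfl⟩ := exists_app t.pos x
  rw [act_app φ t hj, h1, h2 j hj, map_one, one_mul]

/-- the inverse triple -/
def inv (t : Triple G) : Triple G where
  neg := t.pos
  lab := t.lab.map (·⁻¹)
  pos := t.neg
  hneg := by rw [List.length_map]; exact t.hpos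
  hpos := by rw [List.length_map]; exact t.hneg

/-- `t⁻¹ t` -/
def unitT (t : Triple G) : Triple G where
  neg := t.pos
  lab := List.replicate t.pos.size 1
  pos := t.pos
  hneg := List.length_replicate
  hpos := List.length_replicate

theorem act_inv {φ : G →* G} (t : Triple G) (P : CS × G) :
    act φ (inv t) (act φ t P) = P := by
  rw [act_mul (s := inv t) (t := t) (u := unitT t) rfl rfl rfl, act_id rfl]
  · intro j hj
    exact List.getD_replicate _ hj
  · apply List.ext_getElem
    · simp [unitT, inv, t.hpos]
    · intro i h1 h2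
      simp [unitT, inv]

theorem inv_inv_act {φ : G →* G} (t : Triple G) (P : CS × G) :
    act φ t (act φ (inv t) P) = P := by
  have h : inv (inv t) = t := by
    cases t
    simp [inv]
  have := act_inv (φ := φ) (inv t) P
  rwa [h] at this

/-- the permutation of a triple -/
noncomputable def perm (φ : G →* G) (t : Triple G) : Equiv.Perm (CS × G) where
  toFun := act φ t
  invFun := act φ (inv t)
  left_inv := act_inv t
  right_inv := inv_inv_act t

theorem tree_ext : ∀ (A B : BT), A.size = B.size → (∀ j < A.size, addr A j = addr B j) → A = B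
  | .leaf, .leaf, _, _ => rfl
  | .leaf, .node l r, h, _ => by
    have := size_pos l
    have := size_pos r
    simp only [BT.size] at h
    omega
  | .node l r, .leaf, h, _ => by
    have := size_pos l
    have := size_pos r
    simp only [BT.size] at h
    omega
  | .node l r, .node l' r', h, ha => by
    have p1 := size_pos l
    have p2 := size_pos r
    have p1' := size_pos l'
    have p2' := size_pos r'
    simp only [BT.size] at h ha
    have hl : l.size = l'.size := by
      by_contra hne
      rcases lt_or_gt_of_ne hne with hlt | hlt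
      · have := ha l.size (by omega)
        simp only [addr] at this
        rw [if_neg (lt_irrefl _), if_pos hlt] at this
        simp at this
      · have := ha l'.size (by omega)
        simp only [addr] at this
        rw [if_pos hlt, if_neg (lt_irrefl _)] at this
        simp at this
    rw [tree_ext l l' hl, tree_ext r r' (by omega)]
    · intro j hj
      have := ha (l.size + j) (by omega)
      simp only [addr] at this
      rw [if_neg (by omega), if_neg (by omega), ← hl, Nat.add_sub_cancel_left] at this
      exact (List.cons.inj this).2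
    · intro j hj
      have := ha j (by omega)
      simp only [addr] at this
      rw [if_pos hj, if_pos (by omega)] at this
      exact (List.cons.inj this).2

/-- two triples with the same right tree and the same action are equal -/
theorem eq_of_act {φ : G →* G} {s t : Triple G} (hp : s.pos = t.pos)
    (h : act φ s = act φ t) : s = t := by
  have hs : s.neg.size = s.pos.size := by rw [← s.hneg, ← s.hpos]
  have ht : t.neg.size = t.pos.size := by rw [← t.hneg, ← t.hpos]
  have hpp : s.pos.size = t.pos.size := by rw [hp]
  have key : ∀ j < s.pos.size, addr s.neg j = addr t.neg j ∧ s.lab.getD j 1 = t.lab.getD j 1 := by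
    intro j hj
    have h1 : ∀ z g, _ := fun z g => congrFun h (app (addr s.pos j) z, g)
    have h2 : addr s.neg j = addr t.neg j := by
      apply app_inj
      intro z
      have h3 := h1 z 1
      rw [act_app φ s hj] at h3
      have h4 := act_app φ t (j := j) (by omega) z 1
      rw [← hp] at h4
      rw [h4] at h3
      exact (Prod.mk.inj h3).1
    refine ⟨h2, ?_⟩
    have h3 := h1 (fun _ => false) 1
    rw [act_app φ s hj] at h3
    have h4 := act_app φ t (j := j) (by omega) (fun _ => false) 1
    rw [← hp] at h4
    rw [h4, h2] at h3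
    have h5 := (Prod.mk.inj h3).2
    rw [mul_one, mul_one, Lb_zero, Lb_zero] at h5
    exact h5
  have hneg : s.neg = t.neg := by
    apply tree_ext
    · omega
    · intro j hj
      exact (key j (by omega)).1
  have hlab : s.lab = t.lab := by
    apply List.ext_getElem
    · rw [s.hpos, t.hpos, hp]
    · intro i h1 h2
      have h3 := (key i (by rw [← s.hpos]; exact h1)).2
      rwa [List.getD_eq_getElem _ _ h1, List.getD_eq_getElem _ _ h2] at h3
  cases s
  cases t
  simp only at hneg hlab hp
  subst hneg hlab hp
  rfl

/-! ### Common expansions -/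

/-- the tree `B` is obtained from `A` by attaching carets -/
def Ex : BT → BT → Prop := Relation.ReflTransGen fun A B => ∃ k < A.size, B = A.caret k

theorem Ex.left {l l' : BT} (r : BT) (h : Ex l l') : Ex (.node l r) (.node l' r) := by
  induction h with
  | refl => exact Relation.ReflTransGen.refl
  | tail _ hs ih =>
    obtain ⟨k, hk, rfl⟩ := hs
    refine ih.tail ⟨k, by simp only [BT.size]; omega, ?_⟩
    simp only [BT.caret, if_pos hk]

theorem Ex.right {r r' : BT} (l : BT) (h : Ex r r') : Ex (.node l r) (.node l r') := by
  induction h with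
  | refl => exact Relation.ReflTransGen.refl
  | tail _ hs ih =>
    obtain ⟨k, hk, rfl⟩ := hs
    refine ih.tail ⟨l.size + k, by simp only [BT.size]; omega, ?_⟩
    simp only [BT.caret]
    rw [if_neg (by omega), Nat.add_sub_cancel_left]

theorem Ex.node {l l' r r' : BT} (h1 : Ex l l') (h2 : Ex r r') : Ex (.node l r) (.node l' r') :=
  (h1.left r).trans (h2.right l')

theorem ex_leaf : ∀ B : BT, Ex .leaf B
  | .leaf => Relation.ReflTransGen.refl
  | .node l r => by
    have h1 : Ex .leaf (.node .leaf .leaf) :=
      Relation.ReflTransGen.single ⟨0, one_pos, rfl⟩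
    exact h1.trans (Ex.node (ex_leaf l) (ex_leaf r))

/-- every two trees have a common expansion -/
theorem exists_sup : ∀ A B : BT, ∃ C, Ex A C ∧ Ex B C
  | .leaf, B => ⟨B, ex_leaf B, Relation.ReflTransGen.refl⟩
  | .node l r, .leaf => ⟨.node l r, Relation.ReflTransGen.refl, ex_leaf _⟩
  | .node l r, .node l' r' => by
    obtain ⟨C, h1, h2⟩ := exists_sup l l'
    obtain ⟨D, h3, h4⟩ := exists_sup r r'
    exact ⟨.node C D, h1.node h3, h2.node h4⟩

/-- the expansion of a triple -/
def expand (φ : G → G) (s : Triple G) (k : ℕ) (hk : k < s.lab.length) : Triple G where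
  neg := s.neg.caret k
  lab := clone φ k s.lab
  pos := s.pos.caret k
  hneg := by rw [clone_length φ k _ hk, size_caret, s.hneg]
  hpos := by rw [clone_length φ k _ hk, size_caret, s.hpos]

theorem lift_pos (φ : G → G) (s : Triple G) {C : BT} (h : Ex s.pos C) :
    ∃ s' : Triple G, Relation.ReflTransGen (Step φ) s s' ∧ s'.pos = C := by
  induction h with
  | refl => exact ⟨s, Relation.ReflTransGen.refl, rfl⟩
  | tail _ hs ih =>
    obtain ⟨s', h1, h2⟩ := ih
    obtain ⟨k, hk, rfl⟩ := hs
    have hk' : k < s'.lab.length := by rw [s'.hpos, h2]; exact hk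
    exact ⟨expand φ s' k hk', h1.tail ⟨k, hk', rfl, rfl, rfl⟩, by rw [← h2]; rfl⟩

theorem lift_neg (φ : G → G) (s : Triple G) {C : BT} (h : Ex s.neg C) :
    ∃ s' : Triple G, Relation.ReflTransGen (Step φ) s s' ∧ s'.neg = C := by
  induction h with
  | refl => exact ⟨s, Relation.ReflTransGen.refl, rfl⟩
  | tail _ hs ih =>
    obtain ⟨s', h1, h2⟩ := ih
    obtain ⟨k, hk, rfl⟩ := hs
    have hk' : k < s'.lab.length := by rw [s'.hneg, h2]; exact hk
    exact ⟨expand φ s' k hk', h1.tail ⟨k, hk', rfl, rfl, rfl⟩, by rw [← h2]; rfl⟩

theorem adm_step {φ : G → G} {ps : Bool} {s t : Triple G} (h : Step φ s t) (hs : Adm ps s) :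
    Adm ps t := by
  obtain ⟨k, -, -, h2, -⟩ := h
  intro hps
  rw [h2, clone_head]
  exact hs hps

theorem eqv_of_rtg {φ : G → G} {ps : Bool} (s : {t : Triple G // Adm ps t}) {s' : Triple G}
    (h : Relation.ReflTransGen (Step φ) s.1 s') :
    ∃ h' : Adm ps s', Relation.EqvGen (fun s t : {t : Triple G // Adm ps t} => Step φ s.1 t.1)
      s ⟨s', h'⟩ := by
  induction h with
  | refl => exact ⟨s.2, Relation.EqvGen.refl _⟩
  | tail _ hs ih =>
    obtain ⟨h1, h2⟩ := ih
    exact ⟨adm_step hs h1, h2.trans _ _ _ (Relation.EqvGen.rel _ _ hs)⟩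

theorem act_eqv {φ : G →* G} {ps : Bool}
    {s t : {t : Triple G // Adm ps t}}
    (h : Relation.EqvGen (fun s t : {t : Triple G // Adm ps t} => Step φ s.1 t.1) s t) :
    act φ s.1 = act φ t.1 := by
  induction h with
  | rel _ _ h => exact act_step h
  | refl _ => rfl
  | symm _ _ _ ih => exact ih.symm
  | trans _ _ _ _ _ ih1 ih2 => exact ih1.trans ih2

/-- **Faithfulness.** -/
theorem eqv_of_act {φ : G →* G} {ps : Bool}
    {s t : {t : Triple G // Adm ps t}} (h : act φ s.1 = act φ t.1) :
    Relation.EqvGen (fun s t : {t : Triple G // Adm ps t} => Step φ s.1 t.1) s t := by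
  obtain ⟨C, h1, h2⟩ := exists_sup s.1.pos t.1.pos
  obtain ⟨s', hs', es⟩ := lift_pos φ s.1 h1
  obtain ⟨t', ht', et⟩ := lift_pos φ t.1 h2
  obtain ⟨as, hs⟩ := eqv_of_rtg s hs'
  obtain ⟨at', ht⟩ := eqv_of_rtg t ht'
  have e1 := act_eqv hs
  have e2 := act_eqv ht
  have e3 : s' = t' := eq_of_act (es.trans et.symm) (e1.symm.trans (h.trans e2))
  subst e3
  exact hs.trans _ _ _ (ht.symm _ _)

/-- composable representatives -/
theorem exists_comp {φ : G → G} {ps : Bool} (s t : {t : Triple G // Adm ps t}) :
    ∃ s' t' : {t : Triple G // Adm ps t}, s'.1.pos = t'.1.neg ∧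
      Relation.EqvGen (fun s t : {t : Triple G // Adm ps t} => Step φ s.1 t.1) s s' ∧
      Relation.EqvGen (fun s t : {t : Triple G // Adm ps t} => Step φ s.1 t.1) t t' := by
  obtain ⟨C, h1, h2⟩ := exists_sup s.1.pos t.1.neg
  obtain ⟨s', hs', es⟩ := lift_pos φ s.1 h1
  obtain ⟨t', ht', et⟩ := lift_neg φ t.1 h2
  obtain ⟨as, hs⟩ := eqv_of_rtg s hs'
  obtain ⟨at', ht⟩ := eqv_of_rtg t ht'
  exact ⟨⟨s', as⟩, ⟨t', at'⟩, es.trans et.symm, hs, ht⟩

/-- the product of composable triples -/
def mulT (s t : Triple G) (h : s.pos = t.neg) : Triple G where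
  neg := s.neg
  lab := List.zipWith (· * ·) s.lab t.lab
  pos := t.pos
  hneg := by
    rw [List.length_zipWith, s.hneg]
    have : t.lab.length = s.neg.size := by rw [t.hneg, ← h, ← s.hpos, s.hneg]
    omega
  hpos := by
    rw [List.length_zipWith, t.hpos]
    have : s.lab.length = t.pos.size := by rw [s.hpos, h, ← t.hneg, t.hpos]
    omega

theorem adm_mul {ps : Bool} {s t : Triple G} (h : s.pos = t.neg) (hs : Adm ps s) (ht : Adm ps t) :
    Adm ps (mulT s t h) := by
  intro hps
  have h1 := hs hps
  have h2 := ht hps
  change (List.zipWith (· * ·) s.lab t.lab).head? = some 1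
  cases e1 : s.lab with
  | nil => rw [e1] at h1; simp at h1
  | cons a l =>
    cases e2 : t.lab with
    | nil => rw [e2] at h2; simp at h2
    | cons b l' =>
      rw [e1] at h1
      rw [e2] at h2
      simp only [List.head?_cons, Option.some.injEq] at h1 h2
      subst h1 h2
      simp

theorem adm_inv {ps : Bool} {s : Triple G} (hs : Adm ps s) : Adm ps (inv s) := by
  intro hps
  have h1 := hs hps
  change (s.lab.map (·⁻¹)).head? = some 1
  rw [List.head?_map, h1]
  simp

end Pool.Agent.KS6_47.Clo
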