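import Mathlib

/-! Group von Neumann algebras on `ℓ²(G)`, by hand. -/

open scoped ENNReal lp

namespace Pool.Agent.KS6_47.GroupVN

section op

variable {Y : Type}

/-- the Hilbert space `ℓ²(Y)` -/
abbrev L2 (Y : Type) : Type := lp (fun _ : Y => ℂ) 2

theorem memlp_mk (s : Y → Prop) [DecidablePred s] (π : Equiv.Perm Y) (ξ : L2 Y) :
    Memℓp (fun y => if s y then ξ (π y) else 0) 2 := by
  have h2 : (0 : ℝ) < (2 : ℝ≥0∞).toReal := by norm_num
  rw [memℓp_gen_iff h2]
  have h1 : Summable fun y => ‖ξ (π y)‖ ^ (2 : ℝ≥0∞).toReal :=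
    (π.summable_iff (f := fun y => ‖ξ y‖ ^ (2 : ℝ≥0∞).toReal)).mpr ((lp.memℓp ξ).summable h2)
  refine Summable.of_nonneg_of_le (fun y => by positivity) (fun y => ?_) h1
  split_ifs
  · exact le_rfl
  · rw [norm_zero, Real.zero_rpow h2.ne']
    positivity

/-- partial permutation operators -/
noncomputable def pop (s : Y → Prop) [DecidablePred s] (π : Equiv.Perm Y) : L2 Y →L[ℂ] L2 Y :=
  LinearMap.mkContinuous
    { toFun := fun ξ => ⟨fun y => if s y then ξ (π y) else 0, memlp_mk s π ξ⟩
      map_add' := fun ξ η => by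
        ext y
        simp only [lp.coeFn_add, Pi.add_apply]
        split_ifs
        · rfl
        · simp
      map_smul' := fun c ξ => by
        ext y
        simp only [lp.coeFn_smul, Pi.smul_apply, RingHom.id_apply]
        split_ifs
        · rfl
        · simp } 1 (by
    intro ξ
    have h2 : (0 : ℝ) < (2 : ℝ≥0∞).toReal := by norm_num
    rw [one_mul]
    refine lp.norm_le_of_tsum_le h2 (norm_nonneg _) ?_
    rw [lp.norm_rpow_eq_tsum h2]
    rw [← π.tsum_eq (fun y => ‖ξ y‖ ^ (2 : ℝ≥0∞).toReal)]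
    refine Summable.tsum_le_tsum (fun y => ?_) ?_ ?_
    · change ‖if s y then ξ (π y) else 0‖ ^ (2 : ℝ≥0∞).toReal ≤ _
      split_ifs
      · exact le_rfl
      · rw [norm_zero, Real.zero_rpow h2.ne']
        positivity
    · exact (memℓp_gen_iff h2).mp (memlp_mk s π ξ)
    · exact (π.summable_iff (f := fun y => ‖ξ y‖ ^ (2 : ℝ≥0∞).toReal)).mpr
        ((lp.memℓp ξ).summable h2))

theorem pop_apply (s : Y → Prop) [DecidablePred s] (π : Equiv.Perm Y) (ξ : L2 Y) (y : Y) :
    pop s π ξ y = if s y then ξ (π y) else 0 := rfl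

theorem star_pop (s : Y → Prop) [DecidablePred s] (π : Equiv.Perm Y) :
    star (pop s π) = pop (fun y => s (π.symm y)) π.symm := by
  rw [ContinuousLinearMap.star_eq_adjoint]
  symm
  rw [ContinuousLinearMap.eq_adjoint_iff]
  intro ξ η
  rw [lp.inner_eq_tsum, lp.inner_eq_tsum, ← π.tsum_eq]
  refine tsum_congr fun y => ?_
  rw [pop_apply, pop_apply]
  simp only [Equiv.symm_apply_apply]
  split_ifs
  · rfl
  · rw [inner_zero_left, inner_zero_right]

/-- basis vectors -/
noncomputable def delta [DecidableEq Y] (y : Y) : L2 Y := lp.single 2 y 1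

theorem delta_apply [DecidableEq Y] (y z : Y) : delta y z = if z = y then 1 else 0 := by
  unfold delta
  rw [lp.single_apply]
  by_cases h : z = y
  · subst h
    simp
  · rw [if_neg h, Pi.single_apply, if_neg h]

theorem dense_delta [DecidableEq Y] :
    (Submodule.span ℂ (Set.range (delta : Y → L2 Y))).topologicalClosure = ⊤ := by
  let b : HilbertBasis Y ℂ (L2 Y) := ⟨LinearIsometryEquiv.refl ℂ _⟩
  have hb : (b : Y → L2 Y) = delta := by
    funext y
    have := b.repr_self y
    exact this
  have := b.dense_span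
  rwa [hb] at this

theorem op_ext [DecidableEq Y] {S T : L2 Y →L[ℂ] L2 Y} (h : ∀ y, S (delta y) = T (delta y)) :
    S = T := by
  refine ContinuousLinearMap.ext_on (s := Set.range (delta : Y → L2 Y)) ?_ ?_
  · intro x
    have : x ∈ (Submodule.span ℂ (Set.range (delta : Y → L2 Y))).topologicalClosure := by
      rw [dense_delta]
      trivial
    exact this
  · rintro _ ⟨y, rfl⟩
    exact h y

theorem separable_L2 [Countable Y] : TopologicalSpace.SeparableSpace (L2 Y) := by
  classical
  rw [← TopologicalSpace.isSeparable_univ_iff]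
  have h1 : TopologicalSpace.IsSeparable (Set.range (delta : Y → L2 Y)) :=
    (Set.countable_range _).isSeparable
  have h2 := (h1.span (R := ℂ)).closure
  have h3 : closure ((Submodule.span ℂ (Set.range (delta : Y → L2 Y)) : Submodule ℂ (L2 Y)) :
      Set (L2 Y)) = Set.univ := by
    have := congrArg (fun S : Submodule ℂ (L2 Y) => (S : Set (L2 Y))) (dense_delta (Y := Y))
    simpa using this
  rwa [h3] at h2

/-- coordinates of an `ℓ²` vector tend to zero along injective sequences -/
theorem tendsto_coord (ξ : L2 Y) (f : ℕ → Y) (hf : Function.Injective f) :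
    Filter.Tendsto (fun k => ξ (f k)) Filter.atTop (nhds 0) := by
  have h2 : (0 : ℝ) < (2 : ℝ≥0∞).toReal := by norm_num
  have h1 := ((lp.memℓp ξ).summable h2).tendsto_cofinite_zero
  have h3 := h1.comp (hf.tendsto_cofinite)
  rw [Nat.cofinite_eq_atTop] at h3
  have h4 : Filter.Tendsto (fun k => ‖ξ (f k)‖) Filter.atTop (nhds 0) := by
    have h5 := (h3.rpow_const (p := 1 / 2) (Or.inr (by norm_num)))
    simp only [Function.comp_def] at h5
    have h6 : ∀ k, (‖ξ (f k)‖ ^ (2 : ℝ≥0∞).toReal) ^ ((1 : ℝ) / 2) = ‖ξ (f k)‖ := by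
      intro k
      rw [← Real.rpow_mul (norm_nonneg _)]
      norm_num
    simp only [h6] at h5
    rwa [Real.zero_rpow (by norm_num)] at h5
  exact tendsto_zero_iff_norm_tendsto_zero.mpr h4

theorem coord_eq_zero (ξ : L2 Y) (f : ℕ → Y) (hf : Function.Injective f) (c : ℂ)
    (hc : ∀ k, ξ (f k) = c) : c = 0 := by
  have h1 := tendsto_coord ξ f hf
  simp only [hc] at h1
  exact tendsto_nhds_unique tendsto_const_nhds h1

end op

section group

variable {G : Type} [Group G] [DecidableEq G]

/-- left translation -/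
noncomputable def lam (g : G) : L2 G →L[ℂ] L2 G := pop (fun _ => True) (Equiv.mulLeft g⁻¹)

/-- right translation -/
noncomputable def rho (g : G) : L2 G →L[ℂ] L2 G := pop (fun _ => True) (Equiv.mulRight g)

omit [DecidableEq G] in
theorem lam_apply (g h : G) (ξ : L2 G) : lam g ξ h = ξ (g⁻¹ * h) := by
  unfold lam
  rw [pop_apply, if_pos trivial]
  rfl

omit [DecidableEq G] in
theorem rho_apply (g h : G) (ξ : L2 G) : rho g ξ h = ξ (h * g) := by
  unfold rho
  rw [pop_apply, if_pos trivial]
  rfl

omit [DecidableEq G] in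
theorem star_lam (g : G) : star (lam g) = lam g⁻¹ := by
  unfold lam
  rw [star_pop]
  congr 1
  ext h
  simp

omit [DecidableEq G] in
theorem star_rho (g : G) : star (rho g) = rho g⁻¹ := by
  unfold rho
  rw [star_pop]
  congr 1
  ext h
  simp

omit [DecidableEq G] in
theorem lam_mul (g h : G) : lam g * lam h = lam (g * h) := by
  ext ξ x
  change lam g (lam h ξ) x = lam (g * h) ξ x
  rw [lam_apply, lam_apply, lam_apply, mul_inv_rev, mul_assoc]

omit [DecidableEq G] in
theorem lam_one : lam (1 : G) = 1 := by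
  ext ξ x
  rw [lam_apply, inv_one, one_mul]
  rfl

omit [DecidableEq G] in
theorem lam_rho (g h : G) : lam g * rho h = rho h * lam g := by
  ext ξ x
  change lam g (rho h ξ) x = rho h (lam g ξ) x
  rw [lam_apply, rho_apply, rho_apply, lam_apply, mul_assoc]

theorem lam_delta (g h : G) : lam g (delta h) = delta (g * h) := by
  ext x
  rw [lam_apply, delta_apply, delta_apply]
  congr 1
  exact propext inv_mul_eq_iff_eq_mul

theorem rho_delta (g h : G) : rho g (delta h) = delta (h * g⁻¹) := by
  ext x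
  rw [rho_apply, delta_apply, delta_apply]
  congr 1
  exact propext ⟨fun h => by rw [← h]; group, fun h => by rw [h]; group⟩

/-- the group von Neumann algebra `L(G)`, as the commutant of the right regular representation -/
noncomputable def LG (G : Type) [Group G] : VonNeumannAlgebra (L2 G) where
  toStarSubalgebra := StarSubalgebra.centralizer ℂ (Set.range (rho : G → L2 G →L[ℂ] L2 G))
  centralizer_centralizer' := by
    exact Set.centralizer_centralizer_centralizer _

omit [DecidableEq G] in
theorem mem_LG (x : L2 G →L[ℂ] L2 G) : x ∈ LG G ↔ ∀ g, rho g * x = x * rho g := by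
  have h1 : x ∈ LG G ↔ x ∈ StarSubalgebra.centralizer ℂ
    (Set.range (rho : G → L2 G →L[ℂ] L2 G)) := Iff.rfl
  rw [h1, StarSubalgebra.mem_centralizer_iff]
  constructor
  · intro h g
    exact (h (rho g) ⟨g, rfl⟩).1
  · rintro h _ ⟨g, rfl⟩
    refine ⟨h g, ?_⟩
    rw [star_rho]
    exact h g⁻¹

omit [DecidableEq G] in
theorem lam_mem (g : G) : lam g ∈ LG G := (mem_LG _).mpr fun h => (lam_rho g h).symm

theorem delta_eq (h : G) : (delta h : L2 G) = rho h⁻¹ (delta 1) := by
  rw [rho_delta, inv_inv, one_mul]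

theorem apply_delta {x : L2 G →L[ℂ] L2 G} (hx : x ∈ LG G) (h : G) :
    x (delta h) = rho h⁻¹ (x (delta 1)) := by
  have := congrArg (fun T : L2 G →L[ℂ] L2 G => T (delta 1)) ((mem_LG x).mp hx h⁻¹)
  simp only [mul_apply_eq_comp] at this
  rw [this, ← delta_eq]

theorem apply_delta_coord {x : L2 G →L[ℂ] L2 G} (hx : x ∈ LG G) (h g : G) :
    x (delta h) g = x (delta 1) (g * h⁻¹) := by
  rw [apply_delta hx, rho_apply]

theorem ext_LG {x y : L2 G →L[ℂ] L2 G} (hx : x ∈ LG G) (hy : y ∈ LG G)
    (h : ∀ g, x (delta 1) g = y (delta 1) g) : x = y := by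
  refine op_ext fun k => ?_
  rw [apply_delta hx, apply_delta hy]
  congr 1
  ext g
  exact h g

/-- `λ_s + λ_{s⁻¹}` -/
noncomputable def sym (s : G) : L2 G →L[ℂ] L2 G := lam s + lam s⁻¹

omit [DecidableEq G] in
theorem sym_mem (s : G) : sym s ∈ LG G := add_mem (lam_mem _) (lam_mem _)

omit [DecidableEq G] in
theorem sym_selfAdjoint (s : G) : IsSelfAdjoint (sym s) := by
  unfold sym
  rw [IsSelfAdjoint, star_add, star_lam, star_lam, inv_inv, add_comm]

omit [DecidableEq G] in
theorem sym_apply (s g : G) (ξ : L2 G) : sym s ξ g = ξ (s⁻¹ * g) + ξ (s * g) := by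
  unfold sym
  rw [_root_.add_apply, lp.coeFn_add, Pi.add_apply, lam_apply, lam_apply, inv_inv]

theorem commute_sym_iff {x : L2 G →L[ℂ] L2 G} (hx : x ∈ LG G) (s : G) :
    Commute x (sym s) ↔ ∀ g, x (delta 1) (s⁻¹ * g) + x (delta 1) (s * g) =
      x (delta 1) (g * s⁻¹) + x (delta 1) (g * s) := by
  have h1 : ∀ g, (x * sym s) (delta 1) g = x (delta 1) (g * s⁻¹) + x (delta 1) (g * s) := by
    intro g
    have : sym s (delta 1) = delta s + delta s⁻¹ := by
      unfold sym
      rw [_root_.add_apply, lam_delta, lam_delta, mul_one, mul_one]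
    rw [mul_apply_eq_comp, this, map_add, lp.coeFn_add, Pi.add_apply,
      apply_delta_coord hx s, apply_delta_coord hx s⁻¹, inv_inv]
  have h2 : ∀ g, (sym s * x) (delta 1) g = x (delta 1) (s⁻¹ * g) + x (delta 1) (s * g) := by
    intro g
    rw [mul_apply_eq_comp, sym_apply]
  constructor
  · intro h g
    rw [← h1, ← h2, h.eq]
  · intro h
    refine ext_LG (mul_mem hx (sym_mem s)) (mul_mem (sym_mem s) hx) fun g => ?_
    rw [h1, h2, h g]

omit [DecidableEq G] in
/-- The discrete wave equation has no nonzero square summable solution on a free double coset. -/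
theorem wave {ξ : L2 G} (s g : G)
    (hinj : Function.Injective fun p : ℤ × ℤ => s ^ p.1 * g * s ^ p.2)
    (h : ∀ k, ξ (s⁻¹ * k) + ξ (s * k) = ξ (k * s⁻¹) + ξ (k * s)) : ξ g = 0 := by
  set F : ℤ → ℤ → ℂ := fun m n => ξ (s ^ m * g * s ^ n) with hF
  have hw : ∀ m n, F (m - 1) n + F (m + 1) n = F m (n - 1) + F m (n + 1) := by
    intro m n
    have := h (s ^ m * g * s ^ n)
    simp only [hF]
    rw [show s ^ (m - 1) * g * s ^ n = s⁻¹ * (s ^ m * g * s ^ n) by
        rw [zpow_sub_one]
        rw [show s ^ m * s⁻¹ = s⁻¹ * s ^ m from (Commute.inv_left ((Commute.refl s).zpow_right m)).symm.eq]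
        group,
      show s ^ (m + 1) * g * s ^ n = s * (s ^ m * g * s ^ n) by
        rw [add_comm, zpow_add, zpow_one]; group,
      show s ^ m * g * s ^ (n - 1) = (s ^ m * g * s ^ n) * s⁻¹ by
        rw [zpow_sub_one]; group,
      show s ^ m * g * s ^ (n + 1) = (s ^ m * g * s ^ n) * s by
        rw [zpow_add_one]; group]
    exact this
  have hG : ∀ m n, F (m + 1) n - F m (n + 1) = F m (n - 1) - F (m - 1) n := by
    intro m n
    linear_combination hw m n
  have hG' : ∀ (k : ℕ) (m n : ℤ), F (m + 1) n - F m (n + 1) =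
      F (m + 1 + k) (n + k) - F (m + k) (n + 1 + k) := by
    intro k
    induction k with
    | zero => intro m n; simp
    | succ k ih =>
      intro m n
      rw [ih m n]
      have := hG (m + 1 + k) (n + 1 + k)
      push_cast
      rw [show m + 1 + ((k : ℤ) + 1) = m + 1 + k + 1 by ring,
        show n + ((k : ℤ) + 1) = n + 1 + k by ring,
        show m + ((k : ℤ) + 1) = m + 1 + k by ring,
        show n + 1 + ((k : ℤ) + 1) = n + 1 + k + 1 by ring, this]
      rw [show n + 1 + (k : ℤ) - 1 = n + k by ring, show m + 1 + (k : ℤ) - 1 = m + k by ring]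
  have hzero : ∀ m n, F (m + 1) n = F m (n + 1) := by
    intro m n
    have t1 := tendsto_coord ξ (fun k : ℕ => s ^ (m + 1 + k) * g * s ^ (n + k)) (by
      intro a b hab
      have := hinj (a₁ := (m + 1 + a, n + a)) (a₂ := (m + 1 + b, n + b)) hab
      have := (Prod.ext_iff.mp this).1
      simp only at this
      omega)
    have t2 := tendsto_coord ξ (fun k : ℕ => s ^ (m + k) * g * s ^ (n + 1 + k)) (by
      intro a b hab
      have := hinj (a₁ := (m + a, n + 1 + a)) (a₂ := (m + b, n + 1 + b)) hab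
      have := (Prod.ext_iff.mp this).1
      simp only at this
      omega)
    have t3 := t1.sub t2
    rw [sub_zero] at t3
    have t4 : Filter.Tendsto (fun _ : ℕ => F (m + 1) n - F m (n + 1)) Filter.atTop (nhds 0) := by
      refine t3.congr fun k => ?_
      exact (hG' k m n).symm
    exact sub_eq_zero.mp (tendsto_nhds_unique tendsto_const_nhds t4)
  have hdiag : ∀ k : ℕ, F 0 0 = F (-k) k := by
    intro k
    induction k with
    | zero => simp
    | succ k ih =>
      rw [ih]
      have := hzero (-(k : ℤ) - 1) k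
      push_cast
      rw [show -(k : ℤ) - 1 + 1 = -k by ring] at this
      rw [this]
      congr 1
      ring
  have hc := coord_eq_zero ξ (fun k : ℕ => s ^ (-(k : ℤ)) * g * s ^ (k : ℤ)) (by
      intro a b hab
      have := hinj (a₁ := (-(a : ℤ), (a : ℤ))) (a₂ := (-(b : ℤ), (b : ℤ))) hab
      have := (Prod.ext_iff.mp this).2
      simp only at this
      omega) (F 0 0) (fun k => (hdiag k).symm)
  have : F 0 0 = ξ g := by simp [hF]
  rw [← this, hc]

/-- ICC groups give factors. -/
theorem factor_of_icc (hicc : ∀ g : G, g ≠ 1 → ∃ f : ℕ → G, Function.Injective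
    fun k => f k * g * (f k)⁻¹) (z : L2 G →L[ℂ] L2 G) (hz : z ∈ LG G)
    (hc : ∀ x ∈ LG G, x * z = z * x) : ∃ c : ℂ, z = c • (1 : L2 G →L[ℂ] L2 G) := by
  set ξ := z (delta 1) with hξ
  have hinv : ∀ h g : G, ξ (h * g * h⁻¹) = ξ g := by
    intro h g
    have h1 := congrArg (fun T : L2 G →L[ℂ] L2 G => T (delta 1)) (hc (lam h⁻¹) (lam_mem _))
    simp only [mul_apply_eq_comp] at h1
    rw [lam_delta, mul_one, apply_delta hz h⁻¹, inv_inv, ← hξ] at h1
    have h2 := congrArg (fun η : L2 G => η (g * h⁻¹)) h1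
    simp only [lam_apply, rho_apply, inv_inv] at h2
    rw [inv_mul_cancel_right, ← mul_assoc] at h2
    exact h2
  refine ⟨ξ 1, ext_LG hz ?_ ?_⟩
  · exact (mem_LG _).mpr fun g => by simp
  · intro g
    rw [_root_.smul_apply, one_apply_eq_self, lp.coeFn_smul,
      Pi.smul_apply, delta_apply, ← hξ]
    by_cases hg : g = 1
    · subst hg
      simp
    · rw [if_neg hg, smul_zero]
      obtain ⟨f, hf⟩ := hicc g hg
      exact coord_eq_zero ξ _ hf (ξ g) (fun k => hinv (f k) g)

end group

end Pool.Agent.KS6_47.GroupVN
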