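import Pool.Agent.KS6_47.Clo.Act

set_option autoImplicit false
set_option linter.unusedSectionVars false

/-!
# Elements of the cloning groups supported in small cones
-/

namespace Pool.Agent.KS6_47.Clo

variable {G : Type} [Group G]

/-- the tree map of two trees -/
def tm (A B : BT) (x : CS) : CS := app (addr A (split B x).1) (split B x).2

theorem tm_app {A B : BT} {j : ℕ} (hj : j < B.size) (z : CS) :
    tm A B (app (addr B j) z) = app (addr A j) z := by
  unfold tm
  rw [split_app _ _ _ hj]

theorem tm_left {A A' B B' : BT} (h : A.size = B.size) (x : CS) :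
    tm (.node A A') (.node B B') (cns false x) = cns false (tm A B x) := by
  have hlt := (app_split B x).1
  have e : split (.node B B') (cns false x) = split B x := by
    simp only [split, cns, tl_cns, if_true]
  unfold tm
  rw [e]
  simp only [addr]
  rw [if_pos (by omega)]
  rfl

theorem split_right (B B' : BT) (x : CS) :
    split (.node B B') (cns true x) = (B.size + (split B' x).1, (split B' x).2) := by
  have h0 : ¬ cns true x 0 = false := by simp [cns]
  simp only [split]
  rw [if_neg h0]
  rfl

theorem split_left (B B' : BT) (x : CS) :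
    split (.node B B') (cns false x) = split B x := by
  simp only [split, cns, tl_cns, if_true]

theorem tm_right {A A' B B' : BT} (h : A.size = B.size) (x : CS) :
    tm (.node A A') (.node B B') (cns true x) = cns true (tm A' B' x) := by
  unfold tm
  rw [split_right]
  simp only [addr]
  rw [if_neg (by omega), h, Nat.add_sub_cancel_left]
  rfl

theorem tm_leaf (x : CS) : tm .leaf .leaf x = x := rfl

/-- the tree with `A` at the address `0^i 1` -/
def spine : ℕ → BT → BT
  | 0, A => .node .leaf A
  | i + 1, A => .node (spine i A) .leaf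

/-- the cone `0^i 1` -/
def IN : ℕ → CS → CS
  | 0, z => cns true z
  | i + 1, z => cns false (IN i z)

theorem size_spine : ∀ (i : ℕ) (A : BT), (spine i A).size = A.size + 1 + i
  | 0, A => by simp only [spine, BT.size]; omega
  | i + 1, A => by simp only [spine, BT.size, size_spine i A]; omega

theorem spine_eq {A B : BT} (h : A.size = B.size) (i : ℕ) :
    (spine i A).size = (spine i B).size := by rw [size_spine, size_spine, h]

theorem tm_IN {A B : BT} (h : A.size = B.size) : ∀ (i : ℕ) (z : CS),
    tm (spine i A) (spine i B) (IN i z) = IN i (tm A B z)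
  | 0, z => tm_right rfl z
  | i + 1, z => by
    simp only [spine, IN]
    rw [tm_left (spine_eq h i), tm_IN h i z]

theorem tm_out {A B : BT} (h : A.size = B.size) : ∀ (i : ℕ) (x : CS), (∀ z, x ≠ IN i z) →
    tm (spine i A) (spine i B) x = x
  | 0, x, hx => by
    rw [← cns_tl x] at hx ⊢
    cases h0 : x 0 with
    | false => exact tm_left rfl _
    | true =>
      rw [h0] at hx
      exact absurd rfl (hx (tl x))
  | i + 1, x, hx => by
    rw [← cns_tl x] at hx ⊢
    cases h0 : x 0 with
    | true => exact tm_right (spine_eq h i) _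
    | false =>
      rw [h0] at hx
      simp only [spine]
      rw [tm_left (spine_eq h i), tm_out h i (tl x)]
      intro z hz
      exact hx z (by rw [hz]; rfl)

theorem split_IN (B : BT) : ∀ (i : ℕ) (z : CS),
    split (spine i B) (IN i z) = (1 + (split B z).1, (split B z).2)
  | 0, z => split_right .leaf B z
  | i + 1, z => by
    simp only [spine, IN]
    rw [split_left, split_IN B i z]

theorem split_out {B : BT} {m : ℕ} (hm : m < B.size) : ∀ (i : ℕ) (x : CS), (∀ z, x ≠ IN i z) →
    (split (spine i B) x).1 ≠ m + 1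
  | 0, x, hx => by
    rw [← cns_tl x] at hx ⊢
    cases h0 : x 0 with
    | false =>
      simp only [spine]
      rw [split_left]
      simp [split]
    | true =>
      rw [h0] at hx
      exact absurd rfl (hx (tl x))
  | i + 1, x, hx => by
    rw [← cns_tl x] at hx ⊢
    cases h0 : x 0 with
    | true =>
      simp only [spine]
      rw [split_right, size_spine]
      simp only [split]
      omega
    | false =>
      rw [h0] at hx
      simp only [spine]
      rw [split_left]
      apply split_out hm i (tl x)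
      intro z hz
      exact hx z (by rw [hz]; rfl)

theorem IN_inj : ∀ (i j : ℕ) (z z' : CS), IN i z = IN j z' → i = j ∧ z = z'
  | 0, 0, _, _, h => ⟨rfl, (cns_inj h).2⟩
  | 0, j + 1, _, _, h => absurd (cns_inj h).1 (by simp)
  | i + 1, 0, _, _, h => absurd (cns_inj h).1 (by simp)
  | i + 1, j + 1, z, z', h => by
    obtain ⟨h1, h2⟩ := IN_inj i j z z' (cns_inj h).2
    exact ⟨by rw [h1], h2⟩

theorem IN_add : ∀ (q i : ℕ) (z : CS), IN (q + i) z = app (List.replicate q false) (IN i z)
  | 0, i, z => by simp [app]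
  | q + 1, i, z => by
    rw [show q + 1 + i = (q + i) + 1 by ring]
    simp only [IN, List.replicate_succ, app]
    rw [IN_add q i z]

theorem Lb_IN (φ : G →* G) : ∀ (i : ℕ) (z : CS) (a : G), Lb φ (IN i z) a = Lb φ z (φ a)
  | 0, z, a => Lb_true φ z a
  | i + 1, z, a => by
    simp only [IN]
    rw [Lb_false, Lb_IN φ i z a]

/-- the depth of the leftmost leaf -/
def ld : BT → ℕ
  | .leaf => 0
  | .node l _ => ld l + 1

theorem addr_zero : ∀ B : BT, addr B 0 = List.replicate (ld B) false
  | .leaf => rfl
  | .node l r => by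
    simp only [addr, if_pos (size_pos l), ld, List.replicate_succ]
    rw [addr_zero l]

/-- the action of a triple near `0^∞` -/
theorem act_near (φ : G →* G) (t : Triple G) (i : ℕ) (z : CS) (h : G) :
    act φ t (IN (ld t.pos + i) z, h) =
      (IN (ld t.neg + i) z, Lb φ z (φ (t.lab.getD 0 1)) * h) := by
  have e := act_app φ t (j := 0) (size_pos _) (IN i z) h
  rw [addr_zero, addr_zero, Lb_IN] at e
  rw [IN_add, IN_add, e]

/-- the label at the leaf number `j`: `c` if `j = m` and `1` otherwise -/
def pt (m : ℕ) (c : G) (j : ℕ) : G := if j = m then c else 1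

/-- the triple with the label `c` at the leaf number `m` and trivial labels at the other leaves -/
def tri (A B : BT) (h : A.size = B.size) (m : ℕ) (c : G) : Triple G where
  neg := A
  lab := (List.replicate A.size 1).set m c
  pos := B
  hneg := by rw [List.length_set, List.length_replicate]
  hpos := by rw [List.length_set, List.length_replicate, h]

theorem lab_tri (A B : BT) (h : A.size = B.size) (m : ℕ) (c : G) {j : ℕ} (hj : j < B.size) :
    (tri A B h m c).lab.getD j 1 = pt m c j := by
  unfold tri pt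
  rw [List.getD_eq_getElem _ _ (by rw [List.length_set, List.length_replicate, h]; exact hj),
    List.getElem_set]
  by_cases hm : m = j
  · rw [if_pos hm, if_pos hm.symm]
  · rw [if_neg hm, if_neg (fun e => hm e.symm), List.getElem_replicate]

/-- the label at a point -/
noncomputable def lbl (φ : G →* G) (B : BT) (m : ℕ) (c : G) (x : CS) : G :=
  Lb φ (split B x).2 (pt m c (split B x).1)

theorem lbl_app (φ : G →* G) {B : BT} (m : ℕ) (c : G) {j : ℕ} (hj : j < B.size) (z : CS) :
    lbl φ B m c (app (addr B j) z) = Lb φ z (pt m c j) := by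
  unfold lbl
  rw [split_app _ _ _ hj]

theorem act_tri (φ : G →* G) {A B : BT} (h : A.size = B.size) (m : ℕ) (c : G) (x : CS) (g : G) :
    act φ (tri A B h m c) (x, g) = (tm A B x, lbl φ B m c x * g) := by
  obtain ⟨j, hj, z, rfl⟩ := exists_app B x
  have e := act_app φ (tri A B h m c) (j := j) hj z g
  rw [lab_tri A B h m c hj] at e
  rw [tm_app hj, lbl_app φ m c hj]
  exact e

theorem act_tri_IN (φ : G →* G) {A B : BT} (h : A.size = B.size) (m : ℕ) (c : G) (i : ℕ) (x : CS)
    (g : G) : act φ (tri (spine i A) (spine i B) (spine_eq h i) (m + 1) c) (IN i x, g) =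
      (IN i (tm A B x), lbl φ B m c x * g) := by
  rw [act_tri, tm_IN h]
  congr 2
  unfold lbl pt
  rw [split_IN]
  simp only
  congr 1
  by_cases hj : (split B x).1 = m
  · rw [if_pos hj, if_pos (by omega)]
  · rw [if_neg hj, if_neg (by omega)]

theorem act_tri_out (φ : G →* G) {A B : BT} (h : A.size = B.size) {m : ℕ} (hm : m < B.size) (c : G)
    (i : ℕ) (x : CS) (hx : ∀ z, x ≠ IN i z)
    (g : G) : act φ (tri (spine i A) (spine i B) (spine_eq h i) (m + 1) c) (x, g) = (x, g) := by
  rw [act_tri, tm_out h i x hx]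
  unfold lbl pt
  rw [if_neg (split_out hm i x hx), map_one, one_mul]

theorem adm_tri (ps : Bool) {A B : BT} (h : A.size = B.size) (m : ℕ) (c : G) :
    Adm ps (tri A B h (m + 1) c) := by
  intro _
  change ((List.replicate A.size (1 : G)).set (m + 1) c).head? = some 1
  have := size_pos A
  obtain ⟨n, hn⟩ : ∃ n, A.size = n + 1 := ⟨A.size - 1, by omega⟩
  rw [hn]
  rfl

/-! ### The special trees -/

/-- right comb -/
def comb : ℕ → BT
  | 0 => .leaf
  | k + 1 => .node .leaf (comb k)

/-- the tree with `X` at the address `1^p` and leaves at the addresses `1^j 0`, `j < p` -/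
def pre : ℕ → BT → BT
  | 0, X => X
  | p + 1, X => .node .leaf (pre p X)

theorem size_comb : ∀ k : ℕ, (comb k).size = k + 1
  | 0 => rfl
  | k + 1 => by simp only [comb, BT.size, size_comb k]; omega

theorem size_pre : ∀ (p : ℕ) (X : BT), (pre p X).size = p + X.size
  | 0, X => by simp only [pre]; omega
  | p + 1, X => by simp only [pre, BT.size, size_pre p X]; omega

theorem addr_right (X : BT) (j : ℕ) : addr (.node .leaf X) (j + 1) = true :: addr X j := by
  have h : ¬ (j + 1 < BT.leaf.size) := by simp only [BT.size]; omega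
  have h2 : j + 1 - BT.leaf.size = j := by simp only [BT.size]; omega
  rw [addr, if_neg h, h2]

theorem ones_true (v : List Bool) : ones (true :: v) = ones v + 1 := by
  unfold ones
  rw [List.count_cons_self]

theorem ones_false (v : List Bool) : ones (false :: v) = ones v := by
  unfold ones
  rw [List.count_cons_of_ne (by simp)]

theorem ones_comb : ∀ (k j : ℕ), j ≤ k → ones (addr (comb k) j) = j
  | 0, j, h => by
    have : j = 0 := by omega
    subst this
    rfl
  | k + 1, 0, _ => rfl
  | k + 1, j + 1, h => by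
    change ones (addr (.node .leaf (comb k)) (j + 1)) = j + 1
    rw [addr_right, ones_true, ones_comb k j (by omega)]

theorem ones_pre_lt : ∀ (p : ℕ) (X : BT) (j : ℕ), j < p → ones (addr (pre p X) j) = j
  | 0, X, j, h => by omega
  | p + 1, X, 0, _ => rfl
  | p + 1, X, j + 1, h => by
    change ones (addr (.node .leaf (pre p X)) (j + 1)) = j + 1
    rw [addr_right, ones_true, ones_pre_lt p X j (by omega)]

theorem ones_pre_ge : ∀ (p : ℕ) (X : BT) (j : ℕ),
    ones (addr (pre p X) (p + j)) = p + ones (addr X j)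
  | 0, X, j => by simp only [pre, Nat.zero_add]
  | p + 1, X, j => by
    change ones (addr (.node .leaf (pre p X)) (p + 1 + j)) = p + 1 + ones (addr X j)
    rw [show p + 1 + j = (p + j) + 1 by omega, addr_right, ones_true, ones_pre_ge p X j]
    omega

/-- the first tree -/
def TA (p D : ℕ) : BT := pre p (.node (comb D) .leaf)

/-- the second tree -/
def TB (p D : ℕ) : BT := pre p (comb (D + 1))

theorem size_TB (p D : ℕ) : (TB p D).size = p + D + 2 := by
  unfold TB
  rw [size_pre, size_comb]
  omega

theorem size_TA (p D : ℕ) : (TA p D).size = (TB p D).size := by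
  rw [size_TB]
  unfold TA
  rw [size_pre]
  simp only [BT.size]
  rw [size_comb]
  omega

theorem ones_T (p D : ℕ) {j : ℕ} (hj : j < p + D + 1) :
    ones (addr (TA p D) j) = ones (addr (TB p D) j) := by
  unfold TA TB
  by_cases h : j < p
  · rw [ones_pre_lt _ _ _ h, ones_pre_lt _ _ _ h]
  · obtain ⟨i, rfl⟩ : ∃ i, j = p + i := ⟨j - p, by omega⟩
    rw [ones_pre_ge, ones_pre_ge, ones_comb _ _ (by omega)]
    rw [addr, if_pos (by rw [size_comb]; omega), ones_false, ones_comb D i (by omega)]

theorem ones_TA (p D : ℕ) : ones (addr (TA p D) (p + D + 1)) = p + 1 := by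
  unfold TA
  rw [add_assoc, ones_pre_ge, addr, if_neg (by rw [size_comb]; omega), ones_true]
  rfl

theorem ones_TB (p D : ℕ) : ones (addr (TB p D) (p + D + 1)) = p + D + 1 := by
  unfold TB
  rw [add_assoc, ones_pre_ge, ones_comb _ _ le_rfl]

/-- the commutation condition for the labels -/
theorem cond_pt (φ : G →* G) (p D : ℕ) (a c : G)
    (h : φ^[p + 1] (φ a) * c = c * φ^[p + D + 1] (φ a)) {j : ℕ} (hj : j < (TB p D).size) :
    φ^[ones (addr (TA p D) j)] (φ a) * pt (p + D + 1) c j =
      pt (p + D + 1) c j * φ^[ones (addr (TB p D) j)] (φ a) := by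
  rw [size_TB] at hj
  unfold pt
  by_cases hjm : j = p + D + 1
  · subst hjm
    rw [if_pos rfl, ones_TA, ones_TB]
    exact h
  · rw [if_neg hjm, ones_T p D (by omega), mul_one, one_mul]

theorem cond_lbl (φ : G →* G) (p D : ℕ) (a c : G)
    (h : φ^[p + 1] (φ a) * c = c * φ^[p + D + 1] (φ a)) (x : CS) :
    Lb φ (tm (TA p D) (TB p D) x) (φ a) * lbl φ (TB p D) (p + D + 1) c x =
      lbl φ (TB p D) (p + D + 1) c x * Lb φ x (φ a) := by
  obtain ⟨j, hj, z, rfl⟩ := exists_app (TB p D) x
  rw [tm_app hj, lbl_app φ _ c hj, Lb_app, Lb_app, ← map_mul, ← map_mul,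
    cond_pt φ p D a c h hj]

/-! ### The tree maps -/

/-- the cone `1^p` -/
def on : ℕ → CS → CS
  | 0, z => z
  | p + 1, z => cns true (on p z)

theorem on_inj : ∀ (p : ℕ) (z z' : CS), on p z = on p z' → z = z'
  | 0, _, _, h => h
  | p + 1, _, _, h => on_inj p _ _ (cns_inj h).2

theorem app_inj2 : ∀ (v : List Bool) (z z' : CS), app v z = app v z' → z = z'
  | [], _, _, h => h
  | _ :: v, _, _, h => app_inj2 v _ _ (cns_inj h).2

theorem tm_pre (A B : BT) : ∀ (p : ℕ) (z : CS),
    tm (pre p A) (pre p B) (on p z) = on p (tm A B z)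
  | 0, z => rfl
  | p + 1, z => by
    simp only [pre, on]
    rw [tm_right rfl, tm_pre A B p z]

theorem pre_succ (X : BT) : ∀ p : ℕ, pre (p + 1) X = pre p (.node .leaf X)
  | 0 => rfl
  | p + 1 => by
    change BT.node .leaf (pre (p + 1) X) = BT.node .leaf (pre p (.node .leaf X))
    rw [pre_succ X p]

/-- the tree map in the cone `1^p` -/
def gD (D : ℕ) (x : CS) : CS := tm (.node (comb D) .leaf) (comb (D + 1)) x

/-- the tree map `gD` in the cone `1` -/
def hD (D : ℕ) (x : CS) : CS :=
  tm (.node .leaf (.node (comb D) .leaf)) (.node .leaf (comb (D + 1))) x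

theorem tm_T (p D : ℕ) (z : CS) : tm (TA p D) (TB p D) (on p z) = on p (gD D z) := tm_pre _ _ p z

theorem tm_T' (p D : ℕ) (z : CS) :
    tm (TA (p + 1) D) (TB (p + 1) D) (on p z) = on p (hD D z) := by
  unfold TA TB
  rw [pre_succ, pre_succ]
  exact tm_pre _ _ p z

theorem gD_false {D : ℕ} (hD : 0 < D) (x : CS) : gD D (cns false x) = cns false (cns false x) := by
  obtain ⟨E, rfl⟩ : ∃ E, D = E + 1 := ⟨D - 1, by omega⟩
  have h := tm_app (A := .node (comb (E + 1)) .leaf) (B := comb (E + 1 + 1)) (j := 0)
    (size_pos _) x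
  rw [addr_zero, addr_zero] at h
  exact h

theorem gD_10 {D : ℕ} (hD : 0 < D) : ∃ v : List Bool, ∀ x : CS,
    gD D (cns true (cns false x)) = cns false (app v x) := by
  obtain ⟨E, rfl⟩ : ∃ E, D = E + 1 := ⟨D - 1, by omega⟩
  refine ⟨addr (comb (E + 1)) 1, fun x => ?_⟩
  have h := tm_app (A := .node (comb (E + 1)) .leaf) (B := comb (E + 1 + 1)) (j := 1)
    (by rw [size_comb]; omega) x
  have h1 : addr (BT.node (comb (E + 1)) .leaf) 1 = false :: addr (comb (E + 1)) 1 := by
    simp only [addr]
    rw [if_pos (by rw [size_comb]; omega)]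
  rw [h1] at h
  exact h

theorem hD_false (D : ℕ) (x : CS) : hD D (cns false x) = cns false x := tm_left rfl x

theorem hD_true (D : ℕ) (x : CS) : hD D (cns true x) = cns true (gD D x) := tm_right rfl x

theorem gD_iter {D : ℕ} (hD : 0 < D) (x : CS) : ∀ k : ℕ, ∃ y, (gD D)^[k] (cns false x) = cns false y ∧
    (0 < k → ∃ y', y = cns false y')
  | 0 => ⟨x, rfl, by omega⟩
  | k + 1 => by
    obtain ⟨y, hy, -⟩ := gD_iter hD x k
    refine ⟨cns false y, ?_, fun _ => ⟨y, rfl⟩⟩
    rw [Function.iterate_succ_apply', hy, gD_false hD]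

theorem gD_order {D : ℕ} (hD : 0 < D) {k : ℕ} (hk : 0 < k) : ∃ x, (gD D)^[k] x ≠ x := by
  refine ⟨cns false (fun _ => true), fun h => ?_⟩
  obtain ⟨y, hy, h2⟩ := gD_iter hD (fun _ => true) k
  obtain ⟨y', rfl⟩ := h2 hk
  rw [hy] at h
  have := congrFun (cns_inj h).2 0
  simp [cns] at this

theorem T_iter (p D : ℕ) (z : CS) : ∀ k : ℕ,
    (tm (TA p D) (TB p D))^[k] (on p z) = on p ((gD D)^[k] z)
  | 0 => rfl
  | k + 1 => by rw [Function.iterate_succ_apply', Function.iterate_succ_apply', T_iter p D z k, tm_T]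

theorem T_order (p : ℕ) {D : ℕ} (hD : 0 < D) {k : ℕ} (hk : 0 < k) :
    ∃ x, (tm (TA p D) (TB p D))^[k] x ≠ x := by
  obtain ⟨z, hz⟩ := gD_order hD hk
  refine ⟨on p z, fun h => hz ?_⟩
  rw [T_iter] at h
  exact on_inj _ _ _ h

theorem gh_ne {D : ℕ} (h0 : 0 < D) : ∃ x, gD D (hD D x) ≠ hD D (gD D x) := by
  obtain ⟨v, hv⟩ := gD_10 h0
  refine ⟨cns true (cns false fun _ => true), fun h => ?_⟩
  rw [hD_true, gD_false h0, hv, hv, hD_false] at h
  have h2 := app_inj2 v _ _ (cns_inj h).2
  have := congrFun h2 0
  simp [cns] at this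

theorem T_ne (p : ℕ) {D : ℕ} (hD : 0 < D) :
    ∃ x, tm (TA p D) (TB p D) (tm (TA (p + 1) D) (TB (p + 1) D) x) ≠
      tm (TA (p + 1) D) (TB (p + 1) D) (tm (TA p D) (TB p D) x) := by
  obtain ⟨z, hz⟩ := gh_ne hD
  refine ⟨on p z, fun h => hz ?_⟩
  rw [tm_T', tm_T, tm_T, tm_T'] at h
  exact on_inj _ _ _ h

end Pool.Agent.KS6_47.Clo
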