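import Pool.Agent.KS6_47.Clo.Main

set_option autoImplicit false
set_option linter.unusedSectionVars false

/-!
# Existence of the cloning groups, and the main theorem
-/

namespace Pool.Agent.KS6_47.Clo

section

variable {G : Type} [Group G] (φ : G →* G) (ps : Bool)

/-- the group of the permutations given by triples -/
def Grp : Subgroup (Equiv.Perm (CS × G)) where
  carrier := {π | ∃ t : {t : Triple G // Adm ps t}, perm φ t.1 = π}
  one_mem' := by
    refine ⟨⟨tri .leaf .leaf rfl (0 + 1) 1, adm_tri ps rfl 0 1⟩, ?_⟩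
    apply Equiv.ext
    rintro ⟨x, g⟩
    change act φ _ (x, g) = (x, g)
    rw [act_tri, tm_leaf]
    unfold lbl pt
    rw [ite_self, map_one, one_mul]
  mul_mem' := by
    rintro _ _ ⟨s, rfl⟩ ⟨t, rfl⟩
    obtain ⟨s', t', hst, es, et⟩ := exists_comp (φ := φ) s t
    refine ⟨⟨mulT s'.1 t'.1 hst, adm_mul hst s'.2 t'.2⟩, ?_⟩
    have e1 : perm φ s.1 = perm φ s'.1 := Equiv.ext fun P => congrFun (act_eqv es) P
    have e2 : perm φ t.1 = perm φ t'.1 := Equiv.ext fun P => congrFun (act_eqv et) P
    rw [e1, e2, perm_mulT _ _ hst]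
  inv_mem' := by
    rintro _ ⟨s, rfl⟩
    refine ⟨⟨inv s.1, adm_inv s.2⟩, ?_⟩
    rw [eq_inv_iff_mul_eq_one]
    apply Equiv.ext
    intro P
    exact act_inv s.1 P

/-- The groups of the problem exist. -/
theorem isCloningGroup_Grp : IsCloningGroup φ ps (Grp φ ps)
    (fun t => ⟨perm φ t.1, t, rfl⟩) where
  surj := by
    rintro ⟨_, t, rfl⟩
    exact ⟨t, rfl⟩
  eq_iff s t := by
    constructor
    · intro h
      apply eqv_of_act
      funext P
      exact congrArg (fun F : Equiv.Perm (CS × G) => F P) (Subtype.ext_iff.1 h)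
    · intro h
      apply Subtype.ext
      exact Equiv.ext fun P => congrFun (act_eqv h) P
  mul s t u h1 h2 h3 h4 := by
    apply Subtype.ext
    apply Equiv.ext
    intro P
    exact act_mul h1 h2 h3 h4 P

end

theorem exists_group (G : Type) [Group G] (φ : G →* G) (ps : Bool) :
    ∃ (Γ : Type) (_ : Group Γ) (cls : {t : Triple G // Adm ps t} → Γ),
      IsCloningGroup φ ps Γ cls :=
  ⟨Grp φ ps, inferInstance, _, isCloningGroup_Grp φ ps⟩

end Pool.Agent.KS6_47.Clo
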