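import Pool.Agent.KS6_47.Clo.Exist

set_option autoImplicit false

/-!
# Periodicity conditions, and the final theorem
-/

open Filter

namespace Pool.Agent.KS6_47.Clo

/-- `φ` is asymptotically periodic up to inner automorphisms: there are numbers `a_n < b_n` and
elements `c_n` such that for every `g` the relation `φ^{a_n}(g) c_n = c_n φ^{b_n}(g)` holds for all
large `n` -/
def AsympPeriodic {G : Type} [Group G] (φ : G → G) : Prop :=
  ∃ (a b : ℕ → ℕ) (c : ℕ → G), (∀ n, a n < b n) ∧
    ∀ g, ∀ᶠ n in atTop, φ^[a n] g * c n = c n * φ^[b n] g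

/-- for every finite subset `S` of `G` there are `a < b` and `c` with
`φ^a(g) c = c φ^b(g)` for all `g` in `S` -/
def LocallyPeriodic {G : Type} [Group G] (φ : G → G) : Prop :=
  ∀ S : Finset G, ∃ (a b : ℕ) (c : G), a < b ∧ ∀ g ∈ S, φ^[a] g * c = c * φ^[b] g

/-- the forward orbit `g, φ(g), φ²(g), …` of every element is finite -/
def FiniteOrbits {G : Type} (φ : G → G) : Prop :=
  ∀ g, (Set.range fun n : ℕ => φ^[n] g).Finite

theorem finiteOrbits_of_finite {G : Type} [Finite G] (φ : G → G) : FiniteOrbits φ :=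
  fun _ => Set.toFinite _

theorem finiteOrbits_of_involution {G : Type} {φ : G → G} (h : ∀ g, φ (φ g) = g) :
    FiniteOrbits φ := by
  intro g
  refine (Set.toFinite {g, φ g}).subset ?_
  rintro _ ⟨n, rfl⟩
  induction n with
  | zero => simp
  | succ n ih =>
    simp only [Function.iterate_succ_apply']
    rcases ih with ih | ih
    · simp only at ih
      rw [ih]
      simp
    · simp only [Set.mem_singleton_iff] at ih
      rw [ih, h]
      simp

theorem iterate_of_eq {G : Type} {φ : G → G} {g : G} {p q : ℕ} (hpq : p < q)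
    (h : φ^[p] g = φ^[q] g) : ∀ n, p ≤ n → q - p ≤ n → φ^[n] g = φ^[n + n.factorial] g := by
  have h1 : ∀ n, p ≤ n → φ^[n] g = φ^[n + (q - p)] g := by
    intro n hn
    obtain ⟨r, rfl⟩ : ∃ r, n = r + p := ⟨n - p, by omega⟩
    rw [Function.iterate_add_apply, h, ← Function.iterate_add_apply,
      show r + p + (q - p) = r + q by omega]
  have h2 : ∀ k n, p ≤ n → φ^[n] g = φ^[n + (q - p) * k] g := by
    intro k
    induction k with
    | zero => intro n _; rw [Nat.mul_zero, Nat.add_zero]
    | succ k ih =>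
      intro n hn
      rw [h1 n hn, ih (n + (q - p)) (by omega),
        show n + (q - p) + (q - p) * k = n + (q - p) * (k + 1) by ring]
  intro n hn hn2
  obtain ⟨k, hk⟩ := Nat.dvd_factorial (m := q - p) (n := n) (by omega) hn2
  rw [hk]
  exact h2 k n hn

theorem asymp_of_finiteOrbits {G : Type} [Group G] {φ : G → G} (h : FiniteOrbits φ) :
    AsympPeriodic φ := by
  refine ⟨fun n => n, fun n => n + n.factorial, fun _ => 1, fun n => ?_, fun g => ?_⟩
  · have := Nat.factorial_pos n
    show n < n + n.factorial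
    omega
  · have h1 : ¬ Function.Injective fun n : ℕ => φ^[n] g := by
      intro hi
      exact Set.infinite_range_of_injective hi (h g)
    unfold Function.Injective at h1
    push Not at h1
    obtain ⟨p, q, h2, h3⟩ := h1
    rcases lt_or_gt_of_ne h3 with h4 | h4
    · filter_upwards [eventually_ge_atTop (max p (q - p))] with n hn
      rw [mul_one, one_mul]
      exact iterate_of_eq h4 h2 n (le_trans (le_max_left _ _) hn) (le_trans (le_max_right _ _) hn)
    · filter_upwards [eventually_ge_atTop (max q (p - q))] with n hn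
      rw [mul_one, one_mul]
      exact iterate_of_eq h4 h2.symm n (le_trans (le_max_left _ _) hn)
        (le_trans (le_max_right _ _) hn)

theorem asymp_of_const {G : Type} [Group G] {φ : G → G} {a b : ℕ} {c : G} (hab : a < b)
    (h : ∀ g, φ^[a] g * c = c * φ^[b] g) : AsympPeriodic φ :=
  ⟨fun _ => a, fun _ => b, fun _ => c, fun _ => hab, fun g => Eventually.of_forall fun _ => h g⟩

theorem locally_of_asymp {G : Type} [Group G] {φ : G → G} (h : AsympPeriodic φ) :
    LocallyPeriodic φ := by
  obtain ⟨a, b, c, hab, h⟩ := h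
  intro S
  have h1 : ∀ᶠ n in atTop, ∀ g ∈ S, φ^[a n] g * c n = c n * φ^[b n] g :=
    (eventually_all_finset S).2 fun g _ => h g
  obtain ⟨n, hn⟩ := h1.exists
  exact ⟨a n, b n, c n, hab n, hn⟩

theorem asymp_of_locally {G : Type} [Group G] [Countable G] {φ : G → G} (h : LocallyPeriodic φ) :
    AsympPeriodic φ := by
  classical
  obtain ⟨e, he⟩ := exists_surjective_nat G
  choose a b c hab hc using fun n : ℕ => h ((Finset.range n).image e)
  refine ⟨a, b, c, hab, fun g => ?_⟩
  obtain ⟨k, rfl⟩ := he g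
  filter_upwards [eventually_gt_atTop k] with n hn
  exact hc n _ (Finset.mem_image_of_mem _ (Finset.mem_range.2 hn))

theorem final :
    (∀ (G : Type) [Group G] (φ : G →* G) (ps : Bool),
      ∃ (Γ : Type) (_ : Group Γ) (cls : {t : Triple G // Adm ps t} → Γ),
        IsCloningGroup φ ps Γ cls) ∧
    (∀ (G : Type) [Group G] (φ : G →* G) (Γ : Type) [Group Γ]
      (cls : {t : Triple G // Adm true t} → Γ), IsCloningGroup φ true Γ cls →
        HasGamma Γ ∧ HasNoncommutingCentralSequences Γ) ∧
    (∀ (G : Type) [Group G] (φ : G →* G) (ps : Bool) (Γ : Type) [Group Γ]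
      (cls : {t : Triple G // Adm ps t} → Γ), AsympPeriodic φ → IsCloningGroup φ ps Γ cls →
        HasGamma Γ ∧ HasNoncommutingCentralSequences Γ) ∧
    (∀ (G : Type) [Group G] (φ : G →* G),
      (FiniteOrbits φ → AsympPeriodic φ) ∧
      ((∃ (a b : ℕ) (c : G), a < b ∧ ∀ g, φ^[a] g * c = c * φ^[b] g) → AsympPeriodic φ) ∧
      (AsympPeriodic φ → LocallyPeriodic φ) ∧
      (Countable G → (AsympPeriodic φ ↔ LocallyPeriodic φ)) ∧
      ((∀ g, φ (φ g) = g) → FiniteOrbits φ) ∧ (Finite G → FiniteOrbits φ)) := by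
  refine ⟨exists_group, fun G _ φ Γ _ cls hc => ?_, fun G _ φ ps Γ _ cls h hc => ?_,
    fun G _ φ => ⟨asymp_of_finiteOrbits, ?_, locally_of_asymp, fun _ =>
      ⟨locally_of_asymp, asymp_of_locally⟩, finiteOrbits_of_involution,
      fun _ => finiteOrbits_of_finite _⟩⟩
  · refine gen hc (fun _ => 0) (fun _ => 1) (fun _ => 1) (fun _ => one_pos) fun g hg => ?_
    rw [hg rfl]
    exact Eventually.of_forall fun _ => by simp
  · obtain ⟨a, b, c, hab, h⟩ := h
    exact gen hc a b c hab fun g _ => h g
  · rintro ⟨a, b, c, hab, h⟩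
    exact asymp_of_const hab h

end Pool.Agent.KS6_47.Clo
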