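import Pool.Agent.KS6_47.Clo.Elts
import Pool.Agent.KS6_47.Clo.VN3

set_option autoImplicit false
set_option linter.unusedSectionVars false

/-!
# Cloning groups built from an involution: central sequences
-/

open scoped ENNReal lp InnerProductSpace
open Pool.Agent.KS6_47.GroupVN Filter

namespace Pool.Agent.KS6_47.Clo

section hom

variable {G : Type} [Group G] {φ : G →* G} {ps : Bool} {Γ : Type} [Group Γ]
  {cls : {t : Triple G // Adm ps t} → Γ} (hc : IsCloningGroup φ ps Γ cls)

include hc in
theorem perm_eq_of_cls {s t : {t : Triple G // Adm ps t}} (h : cls s = cls t) :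
    perm φ s.1 = perm φ t.1 := by
  have := act_eqv ((hc.eq_iff s t).1 h)
  exact Equiv.ext fun P => congrFun this P

theorem perm_mulT (s t : Triple G) (h : s.pos = t.neg) :
    perm φ s * perm φ t = perm φ (mulT s t h) := by
  apply Equiv.ext
  intro P
  exact act_mul (u := mulT s t h) h rfl rfl rfl P

/-- a representative -/
noncomputable def rep (hc : IsCloningGroup φ ps Γ cls) (x : Γ) : {t : Triple G // Adm ps t} :=
  (hc.surj x).choose

theorem cls_rep (hc : IsCloningGroup φ ps Γ cls) (x : Γ) : cls (rep hc x) = x :=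
  (hc.surj x).choose_spec

theorem perm_cls_mul (hc : IsCloningGroup φ ps Γ cls) (s t u : {t : Triple G // Adm ps t})
    (h : cls s * cls t = cls u) : perm φ s.1 * perm φ t.1 = perm φ u.1 := by
  obtain ⟨s', t', hst, es, et⟩ := exists_comp (φ := φ) s t
  have e1 := (hc.eq_iff _ _).2 es
  have e2 := (hc.eq_iff _ _).2 et
  have e3 := hc.mul s' t' ⟨mulT s'.1 t'.1 hst, adm_mul hst s'.2 t'.2⟩ hst rfl rfl rfl
  rw [← e1, ← e2, h] at e3
  rw [perm_eq_of_cls hc e1, perm_eq_of_cls hc e2, perm_mulT _ _ hst]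
  exact (perm_eq_of_cls hc e3).symm

/-- the action of the group -/
noncomputable def theta (hc : IsCloningGroup φ ps Γ cls) : Γ →* Equiv.Perm (CS × G) :=
  MonoidHom.mk' (fun x => perm φ (rep hc x).1) fun x y => by
    refine (perm_cls_mul hc _ _ _ ?_).symm
    rw [cls_rep hc x, cls_rep hc y, cls_rep hc (x * y)]

theorem theta_cls (t : {t : Triple G // Adm ps t}) :
    theta hc (cls t) = perm φ t.1 :=
  perm_eq_of_cls hc (cls_rep hc _)

theorem theta_inj : Function.Injective (theta hc) := by
  intro x y hxy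
  rw [← cls_rep hc x, ← cls_rep hc y, hc.eq_iff]
  apply eqv_of_act
  rw [← cls_rep hc x, ← cls_rep hc y, theta_cls, theta_cls] at hxy
  funext P
  exact congrArg (fun F : Equiv.Perm (CS × G) => F P) hxy

/-- the element of the group given by two trees and a label, in the cone `0^i 1` -/
noncomputable def W (cls : {t : Triple G // Adm ps t} → Γ) {A B : BT} (h : A.size = B.size) (m : ℕ)
    (c : G) (i : ℕ) : Γ :=
  cls ⟨tri (spine i A) (spine i B) (spine_eq h i) (m + 1) c, adm_tri ps _ _ _⟩

theorem theta_W_IN {A B : BT} (h : A.size = B.size) (m : ℕ) (c : G) (i : ℕ) (z : CS) (g : G) :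
    theta hc (W cls h m c i) (IN i z, g) = (IN i (tm A B z), lbl φ B m c z * g) := by
  unfold W
  rw [theta_cls]
  exact act_tri_IN φ h m c i z g

theorem theta_W_out {A B : BT} (h : A.size = B.size) {m : ℕ} (hm : m < B.size) (c : G) (i : ℕ)
    (x : CS) (hx : ∀ z, x ≠ IN i z) (g : G) :
    theta hc (W cls h m c i) (x, g) = (x, g) := by
  unfold W
  rw [theta_cls]
  exact act_tri_out φ h hm c i x hx g

theorem theta_W_pow {A B : BT} (h : A.size = B.size) (m : ℕ) (c : G) (i k : ℕ) (z : CS) (g : G) :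
    (theta hc (W cls h m c i ^ k) (IN i z, g)).1 = IN i ((tm A B)^[k] z) := by
  have key : ∃ g', theta hc (W cls h m c i ^ k) (IN i z, g) = (IN i ((tm A B)^[k] z), g') := by
    induction k with
    | zero => exact ⟨g, by simp⟩
    | succ k ih =>
      obtain ⟨g', hg'⟩ := ih
      refine ⟨lbl φ B m c ((tm A B)^[k] z) * g', ?_⟩
      rw [pow_succ', map_mul, Equiv.Perm.mul_apply, hg', theta_W_IN,
        Function.iterate_succ_apply']
  obtain ⟨g', hg'⟩ := key
  rw [hg']

/-- elements which are trivial outside of the cone `0^j 1` -/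
def HH (hc : IsCloningGroup φ ps Γ cls) (j : ℕ) : Subgroup Γ where
  carrier := {x | ∀ P : CS × G, (∀ z, P.1 ≠ IN j z) → theta hc x P = P}
  one_mem' := fun P _ => by rw [map_one]; rfl
  mul_mem' := fun {a b} ha hb P hP => by
    rw [map_mul, Equiv.Perm.mul_apply, hb P hP, ha P hP]
  inv_mem' := fun {a} ha P hP => by
    rw [map_inv, Equiv.Perm.inv_eq_iff_eq]
    exact (ha P hP).symm

/-- elements which are trivial on the cone `0^j 1` -/
def NN (hc : IsCloningGroup φ ps Γ cls) (j : ℕ) : Subgroup Γ where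
  carrier := {x | ∀ z g, theta hc x (IN j z, g) = (IN j z, g)}
  one_mem' := fun z g => by rw [map_one]; rfl
  mul_mem' := fun {a b} ha hb z g => by
    rw [map_mul, Equiv.Perm.mul_apply, hb, ha]
  inv_mem' := fun {a} ha z g => by
    rw [map_inv, Equiv.Perm.inv_eq_iff_eq]
    exact (ha z g).symm

theorem sys {A B : BT} (h : A.size = B.size) {m : ℕ} (hm : m < B.size) (c : G)
    (hord : ∀ k : ℕ, 0 < k → ∃ x, (tm A B)^[k] x ≠ x) :
    Sys (W cls h m c) (HH hc) (NN hc) where
  wH i := by
    intro P hP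
    exact theta_W_out hc h hm c i P.1 hP P.2
  HN i j hij := by
    intro x hx z g
    apply hx
    intro z' hz
    exact hij (IN_inj _ _ _ _ hz).1.symm
  disj j := by
    rw [eq_bot_iff]
    rintro x ⟨hx1, hx2⟩
    rw [Subgroup.mem_bot]
    apply theta_inj hc
    rw [map_one]
    apply Equiv.ext
    rintro ⟨x', g⟩
    by_cases hP : ∀ z, x' ≠ IN j z
    · exact hx1 (x', g) hP
    · push Not at hP
      obtain ⟨z, rfl⟩ := hP
      exact hx2 z g
  comm i j hij a ha b hb := by
    apply theta_inj hc
    rw [map_mul, map_mul]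
    have hd : Equiv.Perm.Disjoint (theta hc a) (theta hc b) := by
      rintro ⟨x, g⟩
      by_cases hP : ∀ z, x ≠ IN i z
      · exact Or.inl (ha (x, g) hP)
      · push Not at hP
        obtain ⟨z, rfl⟩ := hP
        right
        apply hb
        intro z' hz
        exact hij (IN_inj _ _ _ _ hz).1
    exact hd.commute.eq
  inf i k hk hw := by
    obtain ⟨x, hx⟩ := hord k hk
    have h1 := theta_W_pow hc h m c i k x (1 : G)
    rw [hw, map_one] at h1
    exact hx (IN_inj _ _ _ _ h1).2.symm

/-- the action of an element near `0^∞` -/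
theorem near (x : Γ) : ∃ (a : G) (p q : ℕ), (ps = true → a = 1) ∧
    (∀ (i : ℕ) (z : CS) (g : G), theta hc x (IN (p + i) z, g) =
      (IN (q + i) z, Lb φ z (φ a) * g)) ∧
    (∀ (i : ℕ) (z : CS) (g : G), theta hc x⁻¹ (IN (q + i) z, g) =
      (IN (p + i) z, Lb φ z (φ a⁻¹) * g)) := by
  set t := rep hc x with ht
  have hx : ∀ (i : ℕ) (z : CS) (g : G), theta hc x (IN (ld t.1.pos + i) z, g) =
      (IN (ld t.1.neg + i) z, Lb φ z (φ (t.1.lab.getD 0 1)) * g) := by
    intro i z g
    rw [← cls_rep hc x, theta_cls, ← ht]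
    exact act_near φ t.1 i z g
  refine ⟨t.1.lab.getD 0 1, ld t.1.pos, ld t.1.neg, fun hps => ?_, hx, fun i z g => ?_⟩
  · have h1 := t.2 hps
    cases hl : t.1.lab with
    | nil => rfl
    | cons a l =>
      rw [hl] at h1
      simpa using h1
  · rw [map_inv, Equiv.Perm.inv_eq_iff_eq, hx, ← mul_assoc, ← map_mul, ← map_mul, mul_inv_cancel,
      map_one, map_one, one_mul]

/-- conjugation of the special elements -/
theorem conj_W {y : Γ} {a : G} {q k : ℕ}
    (hy : ∀ i, q ≤ i → ∀ z g, theta hc y (IN i z, g) = (IN (i + k) z, Lb φ z (φ a) * g))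
    {A B : BT} (h : A.size = B.size) {m : ℕ} (hm : m < B.size) (c : G)
    (hcond : ∀ x, Lb φ (tm A B x) (φ a) * lbl φ B m c x = lbl φ B m c x * Lb φ x (φ a))
    {i : ℕ} (hi : q ≤ i) : y * W cls h m c i * y⁻¹ = W cls h m c (i + k) := by
  rw [mul_inv_eq_iff_eq_mul]
  apply theta_inj hc
  rw [map_mul, map_mul]
  apply Equiv.ext
  rintro ⟨x', g⟩
  rw [Equiv.Perm.mul_apply, Equiv.Perm.mul_apply]
  by_cases hP : ∀ z, x' ≠ IN i z
  · rw [theta_W_out hc h hm c i x' hP]
    have hout : ∀ z, (theta hc y (x', g)).1 ≠ IN (i + k) z := by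
      intro z hz
      have h1 := hy i hi z ((Lb φ z (φ a))⁻¹ * (theta hc y (x', g)).2)
      rw [mul_inv_cancel_left] at h1
      have h2 : theta hc y (x', g) =
          (IN (i + k) z, (theta hc y (x', g)).2) := Prod.ext hz rfl
      rw [← h2] at h1
      have h3 := (theta hc y).injective h1
      exact hP z (Prod.mk.inj h3).1.symm
    exact (theta_W_out hc h hm c (i + k) _ hout _).symm
  · push Not at hP
    obtain ⟨z, rfl⟩ := hP
    rw [theta_W_IN, hy i hi, hy i hi, theta_W_IN, ← mul_assoc, ← mul_assoc, hcond]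

/-- a sequence of systems -/
theorem sysF {p D : ℕ → ℕ} {c : ℕ → G} (hD : ∀ n, 0 < D n)
    (hcond : ∀ a : G, (ps = true → a = 1) → ∀ᶠ n in atTop,
      φ^[p n + 1] (φ a) * c n = c n * φ^[p n + D n + 1] (φ a)) :
    SysF (fun n => W cls (size_TA (p n) (D n)) (p n + D n + 1) (c n)) (HH hc) (NN hc) where
  base n := sys hc _ (by rw [size_TB]; omega) _ fun k hk => T_order (p n) (hD n) hk
  shift x := by
    obtain ⟨a, u, v, h1, h2, h3⟩ := near hc x
    obtain ⟨n1, hn1⟩ := eventually_atTop.1 (hcond a h1)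
    obtain ⟨n2, hn2⟩ := eventually_atTop.1 (hcond a⁻¹ fun h => by rw [h1 h, inv_one])
    rcases le_total u v with hle | hle
    · refine ⟨v - u, max n1 u, Or.inl fun n i hn hi => ?_⟩
      refine conj_W hc (q := u) ?_ _ (by rw [size_TB]; omega) _
        (cond_lbl φ _ _ a _ (hn1 n (le_trans (le_max_left _ _) hn)))
        (le_trans (le_max_right _ _) hi)
      intro i hi z g
      have h4 := h2 (i - u) z g
      rw [show u + (i - u) = i by omega] at h4
      rw [h4]
      congr 2
      omega
    · refine ⟨u - v, max n2 v, Or.inr fun n i hn hi => ?_⟩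
      have h5 := conj_W hc (y := x⁻¹) (a := a⁻¹) (k := u - v) (q := v) ?_
        (size_TA (p n) (D n)) (m := p n + D n + 1) (by rw [size_TB]; omega) (c n)
        (cond_lbl φ _ _ a⁻¹ _ (hn2 n (le_trans (le_max_left _ _) hn)))
        (le_trans (le_max_right _ _) hi)
      · rwa [inv_inv] at h5
      · intro i hi z g
        have h4 := h3 (i - v) z g
        rw [show v + (i - v) = i by omega] at h4
        rw [h4]
        congr 2
        omega

end hom

section final

open scoped Classical

theorem vN_sub (Γ : Type) [Group Γ] {x : L2 Γ →L[ℂ] L2 Γ} (hx : x ∈ vN Γ) : x ∈ LG Γ := by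
  rw [mem_LG]
  intro g
  refine hx (rho g) ?_
  rintro _ ⟨h, rfl⟩
  exact lam_rho h g

theorem mem_vN (Γ : Type) [Group Γ] {x : L2 Γ →L[ℂ] L2 Γ}
    (hx : ∀ T : L2 Γ →L[ℂ] L2 Γ, (∀ g, Commute T (lam g)) → Commute T x) : x ∈ vN Γ := by
  intro T hT
  refine (hx T fun g => ?_).eq
  exact (hT (lam g) ⟨g, rfl⟩).symm

theorem isCentral {Γ : Type} [Group Γ] {v : ℕ → ℕ → Γ} {H N : ℕ → Subgroup Γ} (S : SysF v H N) :
    IsCentralUnitary Γ (fun n => US (v n) n) := by
  refine ⟨fun j => ⟨mem_vN Γ fun T hT => US_commute (v j) j hT, US_unitary (v j) j, ?_⟩,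
    fun x hx => ?_⟩
  · change ⟪delta (1 : Γ), US (v j) j (delta 1)⟫_ℂ = 0
    rw [trace_eq, US_trace (S.base j)]
  · exact central S (vN_sub Γ hx)

theorem noncommuting {Γ : Type} [Group Γ] {v v' : ℕ → ℕ → Γ} {H N : ℕ → Subgroup Γ}
    (S : SysF v H N) (S' : SysF v' H N) (hne : ∀ n i, v n i * v' n i ≠ v' n i * v n i) :
    HasNoncommutingCentralSequences Γ := by
  refine ⟨_, _, isCentral S, isCentral S', fun j => ?_⟩
  have h := US_comm (S.base j) (S'.base j) (hne j) j
  change ‖(US (v j) j * US (v' j) j - US (v' j) j * US (v j) j) (delta (1 : Γ))‖ = _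
  rw [← h, Real.sqrt_sq (norm_nonneg _)]

end final

/-- Central sequences, from the commutation condition. -/
theorem gen {G : Type} [Group G] {φ : G →* G} {ps : Bool} {Γ : Type} [Group Γ]
    {cls : {t : Triple G // Adm ps t} → Γ} (hc : IsCloningGroup φ ps Γ cls)
    (a b : ℕ → ℕ) (c : ℕ → G) (hab : ∀ n, a n < b n)
    (h : ∀ g : G, (ps = true → g = 1) → ∀ᶠ n in atTop, φ^[a n] g * c n = c n * φ^[b n] g) :
    HasGamma Γ ∧ HasNoncommutingCentralSequences Γ := by
  classical
  have S0 := sysF hc (p := a) (D := fun n => b n - a n) (c := fun n => φ^[2] (c n))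
    (fun n => by have := hab n; show 0 < b n - a n; omega) (by
      intro g hg
      filter_upwards [h g hg] with n hn
      have h1 := congrArg φ^[2] hn
      have hab' := hab n
      rw [iterate_map_mul, iterate_map_mul, ← Function.iterate_add_apply,
        ← Function.iterate_add_apply] at h1
      rw [← Function.iterate_succ_apply, ← Function.iterate_succ_apply]
      rw [show (a n + 1).succ = 2 + a n by omega,
        show (a n + (b n - a n) + 1).succ = 2 + b n by omega]
      exact h1)
  have S1 := sysF hc (p := fun n => a n + 1) (D := fun n => b n - a n) (c := fun n => φ^[3] (c n))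
    (fun n => by have := hab n; show 0 < b n - a n; omega) (by
      intro g hg
      filter_upwards [h g hg] with n hn
      have h1 := congrArg φ^[3] hn
      have hab' := hab n
      rw [iterate_map_mul, iterate_map_mul, ← Function.iterate_add_apply,
        ← Function.iterate_add_apply] at h1
      rw [← Function.iterate_succ_apply, ← Function.iterate_succ_apply]
      rw [show (a n + 1 + 1).succ = 3 + a n by omega,
        show (a n + 1 + (b n - a n) + 1).succ = 3 + b n by omega]
      exact h1)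
  refine ⟨⟨_, isCentral S0⟩, noncommuting S0 S1 fun n i h => ?_⟩
  have hab' := hab n
  obtain ⟨x, hx⟩ := T_ne (a n) (D := b n - a n) (by omega)
  apply hx
  have h1 := congrArg (fun y => theta hc y (IN i x, (1 : G))) h
  simp only [map_mul, Equiv.Perm.mul_apply, theta_W_IN] at h1
  exact (IN_inj _ _ _ _ (Prod.mk.inj h1).1).2

end Pool.Agent.KS6_47.Clo
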